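import Pool.Agent.K4H55.BD.Fin
import Pool.Agent.K4H55.BK.Cls
import Pool.Agent.K4H55.BK.Val

/-!
# Rank zero twists of elliptic curves over imaginary quadratic fields

`K` is an imaginary quadratic field of class number one, `E : y² = x³ + a x + b` is an elliptic curve over
`K` without `K`-rational points of order two, not necessarily a `ℚ`-curve or a base change from `ℚ`, and `f` is
the Bianchi newform of weight two of `E`: `L(E/K, s) = L(f, s)`.  Suppose that `L(E/K, 1) ≠ 0` and that the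
`2`-Selmer group of `E/K` is trivial.  Let `E^(D) : y² = x³ + a D² x + b D³` be the twist of `E` by `D ∈ ℤ`, so that
`L(E^(D)/K, s)` is the `L`-function over `ℚ` of the twist by `D` of the abelian surface `Res_{K/ℚ} E`.

Theorem: there is `ε > 0` such that for all local conditions (`D > 0`; `D` is a square in `ℚ_p` for the primes `p`
of a finite set `P`) there are at least `X / (log X)^(1 - ε)` discriminants `D`, `|D| ≤ X`, with these local
conditions, for which `L(E^(D)/K, s)` is entire, `L(E^(D)/K, 1) ≠ 0` and `E^(D)(K)` is finite: the first part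
of the conjecture of Birch and Swinnerton-Dyer is true for `E^(D)` over `K`.  The `D` are composed of odd primes
`q` which split in `K` and for which `x³ + a x + b` has no root modulo the places above `q`.  For all `D` in this class
`E^(D)(K)` is finite of odd order and `Ш(E^(D)/K)[2^∞] = 0`; and the class is covered by boundedly many translates, in
the group of the classes of the `D` modulo squares, of the set of the `D` with `L(E^(D)/K, 1) ≠ 0`, uniformly in
the local conditions.  Moreover the central values satisfy the congruence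
  `|D| L(E^(D)/K, 1) ≡ L(E/K, 1)  modulo  2 w A Λ`   for all `D` in the class,
where `Λ` is the finitely generated group of the values at cusps `x/m`, `m` prime to the level, of the primitive `Φ` of
the harmonic differential of `f`, `A = (2π/|δ|)²/#𝓞^×` with `|δ|² = |d_K|`, and `w` is `4` for `K = ℚ(i)` and `2`
otherwise; here `L(E/K, 1) = A Φ(0)` is in `w A Λ` if the class has an element `D ≠ 1`.  So if the central value of `E` is odd,
that is, `Φ(0)` is not in `2 w Λ`, then the central values of all the `E^(D)` are odd, and all the `E^(D)`, `D` in the class,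
have analytic and algebraic rank zero.  This is what the second part of the conjecture predicts modulo
`2`: the period of `E^(D)` is that of `E` divided by `|D|`, the Tamagawa numbers at the places dividing `D` are `1`, and at
the places dividing `2(4a³ + 27b²)` they are those of `E`.  (Numerically the central value is nonzero and odd, for
instance, for `y² + (1+i)xy + y = x³ + (1+i)x² + 2ix + i` over `ℚ(i)`, with conductor a prime of norm `757`; this is
not a `ℚ`-curve.)

The proof of the statements on points and on `Ш` is a `2`-descent over `K`: with `L = K(θ)` the classes of the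
points of `E^(D)` in `L^×/squares`, and the classes of `H¹(K, E^(D)[2])` that are trivial in `H¹(K_v, E^(D))` for all `v`, satisfy the
conditions which define the `2`-Selmer group of `E`.  The central values are, up to the factor `A` and a Gauss sum, the
sums `∑ χ(x) Φ(x/m)`.  The sum `∑ Φ(x/m)` over the `x` prime to `m` is an odd multiple of `Φ(0)`, as the Hecke eigenvalues at the
places above the primes `q` are odd, and the difference of the two sums is in `2wΛ`, as `Φ(uz, t) = Φ(z, t)` for units `u`.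
For the nonvanishing in general we use that `Λ` is finitely generated, as the group `Γ₀(n)` is finitely generated, and
that the Hecke operators act on it.  The Hecke eigenvalues lie in a ring `R` which is finite over `ℤ`.  After
division by products of Hecke eigenvalues the sums `∑ χ(x) Φ(x/m)` for the twisted central values
become, modulo higher and higher powers of a maximal ideal above `2`, combinations of characters of
the group of the `D`, and Krull's intersection theorem gives the boundedly many translates.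
The number of the `D` comes from the theorem of Chebotarev, applied to the Galois closure of `L` over `ℚ`.
-/

set_option autoImplicit false

open NumberField IsDedekindDomain Matrix Filter Topology
open scoped TensorProduct

namespace Pool.Agent.Results.MP_1a91b9_nt.BianchiRankZero

/-- `K` is an imaginary quadratic field, `σ` is one of its two embeddings in `ℂ`, and `δ` generates the
different of `K`: an `x ∈ K` is in `𝓞` if and only if `Tr(x y / δ) ∈ ℤ` for all `y ∈ 𝓞`. -/
structure IsFieldData (K : Type) [Field K] [NumberField K] (σ : K →+* ℂ) (δ : K) : Prop where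
  quadratic : Module.finrank ℚ K = 2
  imaginary : ∃ x, (starRingEnd ℂ) (σ x) ≠ σ x
  different : ∀ x : K, (∃ a : 𝓞 K, (a : K) = x) ↔
    ∀ y : 𝓞 K, ∃ m : ℤ, Algebra.trace ℚ K (x * y / δ) = m

/-- `h(y) = ∫_0^∞ exp(-1/v - y v) dv = 2 y^(-1/2) K₁(2 √y)`, with the Bessel function `K₁`. -/
noncomputable def bessel (y : ℝ) : ℝ := ∫ v in Set.Ioi (0 : ℝ), Real.exp (-(1 / v) - y * v)

/-- The additive character `e(z) = exp(2πi (z/δ + conj (z/δ)))` of `ℂ`, trivial on `𝓞`. -/
noncomputable def addChar (δ z : ℂ) : ℂ :=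
  Complex.exp (2 * Real.pi * Complex.I * (z / δ + (starRingEnd ℂ) (z / δ)))

/-- The denominator `|c z + d|² + |c|² t²` of the action of the matrix `(a, b; c, d)` on the hyperbolic
space `{(z, t) : z ∈ ℂ, t > 0}`. -/
noncomputable def den (c d z : ℂ) (t : ℝ) : ℝ := ‖c * z + d‖ ^ 2 + ‖c‖ ^ 2 * t ^ 2

/-- The first coordinate `((a z + b) conj (c z + d) + a conj(c) t²) / (|c z + d|² + |c|² t²)` of the image
of `(z, t)` under the matrix `(a, b; c, d)`. -/
noncomputable def actZ (a b c d z : ℂ) (t : ℝ) : ℂ :=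
  ((a * z + b) * (starRingEnd ℂ) (c * z + d) + a * (starRingEnd ℂ) c * (t : ℂ) ^ 2) /
    (den c d z t : ℂ)

/-- The second coordinate, for a matrix of determinant one; in general it is `|ad - bc|` times this. -/
noncomputable def actT (c d z : ℂ) (t : ℝ) : ℝ := t / den c d z t

section field
variable {K : Type} [Field K] [NumberField K]

/-- The function `Φ(z, t) = ∑_{x ∈ 𝓞} c((x)) t² h(N(x) (2πt/|δ|)²) e(x z)
  = (|δ|/π) ∑_{x ≠ 0} (c((x))/|x|) t K₁(4π|x|t/|δ|) e(x z)` on the hyperbolic space, with the coefficients `c`.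
Up to a constant factor it is the primitive, zero at the cusp `∞`, of the harmonic differential of the
form of weight two with the Fourier coefficients `c`: its derivative by `t` is
`-4 ∑_{x ≠ 0} c((x)) t K₀(4π|x|t/|δ|) e(x z)`. -/
noncomputable def primitive (σ : K →+* ℂ) (δ : K) (c : Ideal (𝓞 K) → ℂ) (z : ℂ) (t : ℝ) : ℂ :=
  ∑' x : 𝓞 K, c (Ideal.span {x}) * ((t ^ 2 * bessel (Ideal.absNorm (Ideal.span {x}) *
    (2 * Real.pi * t / ‖σ δ‖) ^ 2) : ℝ) : ℂ) * addChar (σ δ) (σ x * z)

/-- The numbers `c(I)` are the Hecke eigenvalues of a Bianchi newform `f` of weight two, level `(n)` and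
trivial character over `K`: they satisfy `c(𝓞) = 1`, the (trivial) bound `c(I) = O(N(I))` and the Hecke
relations `c(v I) = c(v) c(I)` for `v ∤ I`, `c(v² I) = c(v) c(v I) - N(v) c(I)` for the primes `v ∤ n`, and
`c(v I) = c(v) c(I)` for `v ∣ n`; the differential `dΦ` of the function `Φ` with the coefficients `c` is
invariant under `Γ₀(n)`, that is, `Φ(γ P) - Φ(P)` is a constant for every `γ ∈ Γ₀(n)`; and `dΦ` is an
eigenform, with the eigenvalue `±1`, of the Fricke involution `W = (0, -1; n, 0)`. -/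
structure IsNewform (σ : K →+* ℂ) (δ : K) (n : 𝓞 K) (c : Ideal (𝓞 K) → ℂ) : Prop where
  level : n ≠ 0
  zero : c ⊥ = 0
  one : c ⊤ = 1
  bound : ∃ C : ℝ, ∀ I, ‖c I‖ ≤ C * Ideal.absNorm I
  good : ∀ v : HeightOneSpectrum (𝓞 K), n ∉ v.asIdeal → ∀ I,
    (¬ v.asIdeal ∣ I → c (v.asIdeal * I) = c v.asIdeal * c I) ∧
    c (v.asIdeal * (v.asIdeal * I)) = c v.asIdeal * c (v.asIdeal * I) -
      Ideal.absNorm v.asIdeal * c I
  bad : ∀ v : HeightOneSpectrum (𝓞 K), n ∈ v.asIdeal → ∀ I,
    c (v.asIdeal * I) = c v.asIdeal * c I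
  invariant : ∃ κ : SpecialLinearGroup (Fin 2) (𝓞 K) → ℂ,
    ∀ γ : SpecialLinearGroup (Fin 2) (𝓞 K), n ∣ γ.1 1 0 → ∀ (z : ℂ) (t : ℝ), 0 < t →
      primitive σ δ c (actZ (σ (γ.1 0 0)) (σ (γ.1 0 1)) (σ (γ.1 1 0)) (σ (γ.1 1 1)) z t)
        (actT (σ (γ.1 1 0)) (σ (γ.1 1 1)) z t) = primitive σ δ c z t + κ γ
  fricke : ∃ w κ : ℂ, w * w = 1 ∧ ∀ (z : ℂ) (t : ℝ), 0 < t →
    primitive σ δ c (actZ 0 (-1) (σ n) 0 z t) (‖σ n‖ * actT (σ n) 0 z t) =
      -w * primitive σ δ c z t + κ

/-- The number of the affine points of `y² = x³ + a x + b` over the residue field of `v`. -/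
noncomputable def points (a b : 𝓞 K) (v : HeightOneSpectrum (𝓞 K)) : ℕ :=
  Nat.card {x : (𝓞 K ⧸ v.asIdeal) × (𝓞 K ⧸ v.asIdeal) //
    x.2 ^ 2 = x.1 ^ 3 + (Ideal.Quotient.mk v.asIdeal a) * x.1 + (Ideal.Quotient.mk v.asIdeal b)}

/-- `f` is the newform of `E : y² = x³ + a x + b`: for `v ∤ 2(4a³ + 27b²)` (so that `E` has good reduction at `v`)
the level is prime to `v` and `c(v) = N(v) + 1 - #E(𝓞/v)`. -/
def IsNewformOf (a b n : 𝓞 K) (c : Ideal (𝓞 K) → ℂ) : Prop :=
  ∀ v : HeightOneSpectrum (𝓞 K), 2 * (4 * a ^ 3 + 27 * b ^ 2) ∉ v.asIdeal →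
    n ∉ v.asIdeal ∧ c v.asIdeal = (Ideal.absNorm v.asIdeal : ℂ) - points a b v

open Classical in
/-- The Euler factor at `v` of `L(E^(D)/K, s)`, for `D` which is a square in `K_v` at the `v ∣ 2(4a³ + 27b²)` and not
divisible by the square of a `v ∤ 2(4a³ + 27b²)`.  At `v ∣ 2(4a³ + 27b²)`, where `E^(D)` is isomorphic to `E` over `K_v`,
it is the Euler factor of `L(E/K, s) = L(f, s)`; at the other `v` it is `1` if `v ∣ D` (additive reduction), and
`(1 - a_v N(v)^(-s) + N(v)^(1-2s))⁻¹` with `a_v = N(v) + 1 - #E^(D)(𝓞/v)` if `v ∤ D` (good reduction). -/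
noncomputable def factor (a b n : 𝓞 K) (c : Ideal (𝓞 K) → ℂ) (D : ℤ) (s : ℂ)
    (v : HeightOneSpectrum (𝓞 K)) : ℂ :=
  if 2 * (4 * a ^ 3 + 27 * b ^ 2) ∈ v.asIdeal then
    (1 - c v.asIdeal * (Ideal.absNorm v.asIdeal : ℂ) ^ (-s) +
      (if n ∈ v.asIdeal then 0 else (Ideal.absNorm v.asIdeal : ℂ) ^ (1 - 2 * s)))⁻¹
  else if (D : 𝓞 K) ∈ v.asIdeal then 1
  else (1 - ((Ideal.absNorm v.asIdeal : ℂ) - points (a * (D : 𝓞 K) ^ 2) (b * (D : 𝓞 K) ^ 3) v) *
    (Ideal.absNorm v.asIdeal : ℂ) ^ (-s) + (Ideal.absNorm v.asIdeal : ℂ) ^ (1 - 2 * s))⁻¹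

/-- `L(E^(D)/K, s)` is entire and `L(E^(D)/K, 1) ≠ 0`. -/
def Nonvanishing (a b n : 𝓞 K) (c : Ideal (𝓞 K) → ℂ) (D : ℤ) : Prop :=
  ∃ G : ℂ → ℂ, Differentiable ℂ G ∧
    (∀ s : ℂ, 2 < s.re → HasProd (factor a b n c D s) (G s)) ∧ G 1 ≠ 0

/-- The curve `E^(D) : y² = x³ + a D² x + b D³` over `K`. -/
def curve (a b : 𝓞 K) (D : ℤ) : WeierstrassCurve K :=
  ⟨0, 0, 0, (a : K) * (D : K) ^ 2, (b : K) * (D : K) ^ 3⟩

section selmer
variable {L : Type} [Field L] [NumberField L] [Algebra K L]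

/-- `L = K(θ)` is the cubic field of `E`: `θ³ + a θ + b = 0`, and every element of `L` is `u + v θ + w θ²` for
unique `u, v, w ∈ K`.  So `x³ + a x + b` is irreducible over `K`, that is, `E(K)[2] = 0`. -/
structure IsCubicField (a b : 𝓞 K) (θ : L) : Prop where
  root : θ ^ 3 + algebraMap K L a * θ + algebraMap K L b = 0
  basis : ∀ β : L, ∃! t : K × K × K,
    β = algebraMap K L t.1 + algebraMap K L t.2.1 * θ + algebraMap K L t.2.2 * θ ^ 2

/-- The class of `α` in `(K_v ⊗ L)^×` modulo squares is the image of a point of `E(K_v)` under the Kummer map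
`(x, y) ↦ x - θ`.  (Every class of `E(K_v)` modulo `2 E(K_v)` contains a point with `y ≠ 0` or is zero.) -/
def LocalCondition (a b : 𝓞 K) (θ : L) (v : HeightOneSpectrum (𝓞 K)) (α : L) : Prop :=
  IsSquare ((1 : v.adicCompletion K) ⊗ₜ[K] α) ∨
  ∃ x y : v.adicCompletion K, y ≠ 0 ∧
    y ^ 2 = x ^ 3 + algebraMap K (v.adicCompletion K) a * x + algebraMap K (v.adicCompletion K) b ∧
    IsSquare (((1 : v.adicCompletion K) ⊗ₜ[K] α) * (x ⊗ₜ[K] (1 : L) - 1 ⊗ₜ[K] θ))

/-- The `2`-Selmer group of `E/K` is trivial.  As `E(K)[2] = 0` and `K` has no real places, it is the group of the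
classes of `α ∈ L^×` modulo squares such that the norm of `α` is a square, `w(α)` is even for all places
`w ∤ 2(4a³ + 27b²)` of `L`, and `α` satisfies the local conditions at the places `v ∣ 2(4a³ + 27b²)` of `K`. -/
def TrivialSelmer (a b : 𝓞 K) (θ : L) : Prop :=
  ∀ α : L, α ≠ 0 → IsSquare (Algebra.norm K α) →
    (∀ w : HeightOneSpectrum (𝓞 L), algebraMap (𝓞 K) (𝓞 L) (2 * (4 * a ^ 3 + 27 * b ^ 2)) ∉
      w.asIdeal → IsSquare (w.valuation L α)) →
    (∀ v : HeightOneSpectrum (𝓞 K), 2 * (4 * a ^ 3 + 27 * b ^ 2) ∈ v.asIdeal →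
      LocalCondition a b θ v α) → IsSquare α

end selmer

/-- The admissible prime numbers `q`: `q` is odd and splits in `K`, and the two places `v` of `K` above `q` do
not divide `2(4a³ + 27b²)` and the level, and `x³ + a x + b` has no root modulo `v`. -/
structure Admissible (a b n : 𝓞 K) (q : ℕ) : Prop where
  prime : q.Prime
  odd : q ≠ 2
  degree : ∀ v : HeightOneSpectrum (𝓞 K), (q : 𝓞 K) ∈ v.asIdeal → Ideal.absNorm v.asIdeal = q
  unramified : ∀ v : HeightOneSpectrum (𝓞 K), (q : 𝓞 K) ∈ v.asIdeal → (q : 𝓞 K) ∉ v.asIdeal ^ 2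
  good : ∀ v : HeightOneSpectrum (𝓞 K), (q : 𝓞 K) ∈ v.asIdeal →
    2 * (4 * a ^ 3 + 27 * b ^ 2) ∉ v.asIdeal ∧ n ∉ v.asIdeal ∧
      ∀ x : 𝓞 K, x ^ 3 + a * x + b ∉ v.asIdeal

/-- The class of the discriminants `D` for the local conditions `(pos, P)`: `D` is squarefree, `D ≡ 1 mod 4`, all
prime divisors of `D` are admissible, `D > 0` if `pos` is true, and the prime numbers in `P` and those below the
places `v ∣ 2(4a³ + 27b²)` of `K` split in `ℚ(√D)` (so that `D` is a square in `ℚ_p` for these primes `p`). -/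
structure InClass (a b n : 𝓞 K) (pos : Prop) (P : Finset ℕ) (D : ℤ) : Prop where
  squarefree : Squarefree D
  mod_four : D % 4 = 1
  admissible : ∀ q : ℕ, q.Prime → (q : ℤ) ∣ D → Admissible a b n q
  positive : pos → 0 < D
  split : ∀ p : ℕ, p.Prime → (p ∈ P ∨ ∃ v : HeightOneSpectrum (𝓞 K), (p : 𝓞 K) ∈ v.asIdeal ∧
    2 * (4 * a ^ 3 + 27 * b ^ 2) ∈ v.asIdeal) → jacobiSym p D.natAbs = 1

/-- `L(E^(D)/K, s)` is entire and `L(E^(D)/K, 1) = z`. -/
def CentralValue (a b n : 𝓞 K) (c : Ideal (𝓞 K) → ℂ) (D : ℤ) (z : ℂ) : Prop :=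
  ∃ G : ℂ → ℂ, Differentiable ℂ G ∧
    (∀ s : ℂ, 2 < s.re → HasProd (factor a b n c D s) (G s)) ∧ G 1 = z

/-- The group `Λ` generated by the values of the primitive `Φ` at the cusps `x/m`, `m ≠ 0` prime to the level (that is,
by the limits of `Φ(x/m, t)` for `t → 0`). -/
def Lam (σ : K →+* ℂ) (δ : K) (n : 𝓞 K) (c : Ideal (𝓞 K) → ℂ) : AddSubgroup ℂ :=
  AddSubgroup.closure {z | ∃ x m : 𝓞 K, m ≠ 0 ∧ IsCoprime m n ∧
    Tendsto (fun t => primitive σ δ c (σ x / σ m) t) (𝓝[>] 0) (𝓝 z)}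

/-- The number `w` of the `u ∈ 𝓞` with `u⁴ = 1`: it is `4` for `K = ℚ(i)` and `2` otherwise. -/
noncomputable def fourth (K : Type) [Field K] : ℕ := Nat.card {u : 𝓞 K // u ^ 4 = 1}

/-- The number `A = (2π/|δ|)²/#𝓞^×`. -/
noncomputable def constA (σ : K →+* ℂ) (δ : K) : ℂ :=
  (2 * Real.pi / ‖σ δ‖) ^ 2 / (Nat.card (𝓞 K)ˣ : ℂ)

end field

/-- Let `K` be an imaginary quadratic field of class number one, `E : y² = x³ + a x + b` an elliptic curve over `K`
with `E(K)[2] = 0` and with the Bianchi newform `f`, and suppose that `L(E/K, 1) ≠ 0` and that the `2`-Selmer group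
of `E/K` is trivial.
(1) For all local conditions `(pos, P)` and all `D` in the class, `E^(D)(K)` is finite of odd order, and
`Ш(E^(D)/K)` has no elements of `2`-power order except `0`.
There is `Φ(0)`, the limit of `Φ(0, t)` for `t → 0`, such that:
(2) `L(E/K, 1) = A Φ(0)`, and for all local conditions and all `D` in the class there is `y ∈ Λ` with
`|D| L(E^(D)/K, 1) = A (Φ(0) + 2 w y)`.
(3) If `Φ(0)` is not in `2 w Λ`, then `L(E^(D)/K, 1) ≠ 0` for all local conditions and all `D` in the class.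
There are `V` and `ε > 0` such that for all local conditions `(pos, P)`:
(4) There is a subset `𝒦` of the class, with at most `V` elements, such that for every `D` in the class there are
`k ∈ 𝒦` and `D'` in the class with `D' ≡ D k` modulo squares and `L(E^(D')/K, 1) ≠ 0`.
(5) There is `C` such that for all `X` the number of the `D` in the class with `|D| ≤ X` is at most `C` times the
number of the `D` in the class with `|D| ≤ C X` and `L(E^(D)/K, 1) ≠ 0`.
(6) For large `X` there are at least `X / (log X)^(1 - ε)` discriminants `D` in the class with `|D| ≤ X` such that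
`L(E^(D)/K, s)` is entire and `L(E^(D)/K, 1) ≠ 0` (and `E^(D)(K)` is finite, by (1)). -/
theorem result (K : Type) [Field K] [NumberField K] [IsPrincipalIdealRing (𝓞 K)] (σ : K →+* ℂ)
    (δ : K) (hK : IsFieldData K σ δ) (a b : 𝓞 K) (hΔ : 4 * a ^ 3 + 27 * b ^ 2 ≠ 0) (n : 𝓞 K)
    (c : Ideal (𝓞 K) → ℂ) (hf : IsNewform σ δ n c) (hE : IsNewformOf a b n c)
    (hL : Nonvanishing a b n c 1) (L : Type) [Field L] [NumberField L] [Algebra K L] (θ : L)
    (hθ : IsCubicField a b θ) (hS : TrivialSelmer a b θ) :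
    (∀ (pos : Prop) (P : Finset ℕ) (D : ℤ), InClass a b n pos P D →
      Finite (curve a b D).toAffine.Point ∧ Odd (Nat.card (curve a b D).toAffine.Point) ∧
      ∀ (k : ℕ) (x : Pool.Agent.TH841.NF.D.Sha (curve a b D)), (2 ^ k : ℕ) • x = 0 → x = 0) ∧
    (∃ z₀ : ℂ, Tendsto (fun t => primitive σ δ c 0 t) (𝓝[>] 0) (𝓝 z₀) ∧
      CentralValue a b n c 1 (constA σ δ * z₀) ∧
      (∀ (pos : Prop) (P : Finset ℕ) (D : ℤ), InClass a b n pos P D → ∃ y ∈ Lam σ δ n c,
        CentralValue a b n c D (constA σ δ * (z₀ + 2 * fourth K * y) / D.natAbs)) ∧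
      ((∀ y ∈ Lam σ δ n c, z₀ ≠ 2 * fourth K * y) →
        ∀ (pos : Prop) (P : Finset ℕ) (D : ℤ), InClass a b n pos P D →
          Nonvanishing a b n c D)) ∧
    ∃ (V : ℕ) (ε : ℝ), 0 < ε ∧ ε < 1 ∧ ∀ (pos : Prop) (P : Finset ℕ),
      (∃ 𝒦 : Finset ℤ, 𝒦.card ≤ V ∧ (∀ k ∈ 𝒦, InClass a b n pos P k) ∧
        ∀ D, InClass a b n pos P D → ∃ k ∈ 𝒦, ∃ g D' : ℤ, g ≠ 0 ∧ D' * g ^ 2 = D * k ∧
          InClass a b n pos P D' ∧ Nonvanishing a b n c D') ∧
      (∃ C : ℕ, ∀ X : ℕ, {D : ℤ | InClass a b n pos P D ∧ |D| ≤ X}.ncard ≤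
        C * {D : ℤ | InClass a b n pos P D ∧ |D| ≤ C * X ∧ Nonvanishing a b n c D}.ncard) ∧
      ∃ X₀ : ℕ, ∀ X : ℕ, X₀ ≤ X → (X : ℝ) / Real.log X ^ (1 - ε) ≤
        {D : ℤ | InClass a b n pos P D ∧ |D| ≤ X ∧ Nonvanishing a b n c D}.ncard := by
  classical
  have h : K4H55.BI.IQ K σ δ := ⟨hK.quadratic, hK.imaginary, inferInstance, hK.different⟩
  have hf' : K4H55.BI.BF σ δ n c := ⟨hf.level, hf.zero, hf.one, hf.bound, hf.good, hf.bad,
    hf.invariant, hf.fricke⟩
  have hx : 2 * (4 * a ^ 3 + 27 * b ^ 2) ≠ 0 := mul_ne_zero two_ne_zero hΔ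
  have hcub : K4H55.BD.Cub K θ := by
    refine ⟨fun p q r h0 => ?_, fun β => ?_⟩
    · obtain ⟨t, ht, hu⟩ := hθ.basis 0
      have h1 := hu (p, q, r) h0.symm
      have h2 := hu (0, 0, 0) (by simp)
      have h3 := h1.trans h2.symm
      simp only [Prod.mk.injEq] at h3
      exact h3
    · obtain ⟨t, ht, -⟩ := hθ.basis β
      exact ⟨t.1, t.2.1, t.2.2, ht⟩
  have hadm : ∀ q, Admissible a b n q ↔ q ∈ K4H55.BD.QE h a b n := by
    intro q
    constructor
    · intro hq
      exact ⟨K4H55.BD.spl_of h hq.prime hq.odd hq.degree hq.unramified, hq.good⟩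
    · rintro ⟨h1, h2⟩
      exact ⟨h1.pr, h1.odd, h1.deg, fun v hv => K4H55.BD.spl_sq h h1 hv, h2⟩
  have hcl : ∀ pos P D, InClass a b n pos P D ↔
      K4H55.AB.DC (K4H55.BD.QE h a b n) pos (P.filter Nat.Prime ∪ K4H55.BD.P0 h hx) D := by
    intro pos P D
    constructor
    · intro h1
      refine ⟨h1.squarefree, h1.mod_four, fun q hq hqD => (hadm q).1 (h1.admissible q hq hqD),
        h1.positive, fun p hp => ?_⟩
      rcases Finset.mem_union.1 hp with h2 | h2
      · exact h1.split p (Finset.mem_filter.1 h2).2 (Or.inl (Finset.mem_filter.1 h2).1)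
      · obtain ⟨h3, h4⟩ := (K4H55.BD.mem_P0 h hx).1 h2
        exact h1.split p h3 (Or.inr h4)
    · intro h1
      refine ⟨h1.sqf, h1.one, fun q hq hqD => (hadm q).2 (h1.adm q hq hqD), h1.pos,
        fun p hp h2 => ?_⟩
      refine h1.loc p (Finset.mem_union.2 ?_)
      rcases h2 with h2 | h2
      · exact Or.inl (Finset.mem_filter.2 ⟨h2, hp⟩)
      · exact Or.inr ((K4H55.BD.mem_P0 h hx).2 ⟨hp, h2⟩)
  have hsel : ∀ (pos : Prop) (P : Finset ℕ) (D : ℤ), InClass a b n pos P D →
      (Finite (curve a b D).toAffine.Point ∧ Odd (Nat.card (curve a b D).toAffine.Point)) ∧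
      (∀ (k : ℕ) (x : Pool.Agent.TH841.NF.D.Sha (curve a b D)), (2 ^ k : ℕ) • x = 0 → x = 0) ∧
      ∀ x : Pool.Agent.Y667.BKP.H1f 2 (curve a b D), x = 0 := fun pos P D hD =>
    K4H55.BK.bk_class h hx hcub hθ.root hS ((hcl pos P D).1 hD)
  obtain ⟨V, ε, hε, hε1, hV⟩ := K4H55.BD.main h hx hf' hE hL hcub hθ.root
  refine ⟨fun pos P D hD => ⟨(hsel pos P D hD).1.1, (hsel pos P D hD).1.2, (hsel pos P D hD).2.1⟩,
    ?_, V, ε, hε, hε1, fun pos P => ?_⟩
  · obtain ⟨z₀, -, hz⟩ := K4H55.BK.exists_z0 h hf'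
    refine ⟨z₀, hz, K4H55.BK.val_one h hf' hE hz, fun pos P D hD => ?_, fun hodd pos P D hD =>
      K4H55.BK.nve_odd h hx hf' hE ⟨z₀, hz, hodd⟩ ((hcl pos P D).1 hD)⟩
    obtain ⟨G, h1, h2, y, hy, h3⟩ := K4H55.BK.nve_val h hx hf' hE hz rfl ((hcl pos P D).1 hD)
    refine ⟨y, hy, G, h1, h2, ?_⟩
    have hD0 : (D.natAbs : ℂ) ≠ 0 := by
      have h4 : D ≠ 0 := hD.squarefree.ne_zero
      exact_mod_cast Int.natAbs_ne_zero.2 h4
    rw [eq_div_iff hD0, mul_comm (G 1)]
    exact h3
  · obtain ⟨KD, h1, h2, h3, ⟨C, h4⟩, X0, h5⟩ := hV pos (P.filter Nat.Prime)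
      (fun p hp => (Finset.mem_filter.1 hp).2)
    refine ⟨⟨KD, h1, fun k hk => (hcl pos P k).2 (h2 k hk), fun D hD => ?_⟩, ⟨C, fun X => ?_⟩,
      X0, fun X hX => ?_⟩
    · obtain ⟨k, hk, g, D', h6, h7, h8, h9⟩ := h3 D ((hcl pos P D).1 hD)
      exact ⟨k, hk, g, D', h6, h7, (hcl pos P D').2 h8, h9⟩
    · have h6 := h4 X
      simp only [← hcl] at h6
      exact h6
    · have h6 := h5 X hX
      simp only [← hcl] at h6
      exact h6

end Pool.Agent.Results.MP_1a91b9_nt.BianchiRankZero
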