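import Pool.Agent.K4H55.CX.AbL

/-!
# Elliptic curves over the Galois extensions of 2-power degree of an imaginary quadratic field

`K` is an imaginary quadratic field of class number one, `E : y² = x³ + a x + b` is an elliptic curve over `K`
without `K`-rational points of order two, not necessarily a `ℚ`-curve or a base change from `ℚ`, and `f` is the
Bianchi newform of weight two of `E`.  Suppose that the `2`-Selmer group of `E/K` is trivial and that the central
value of `E` is odd: the value `Φ(0)` of the primitive `Φ` of the harmonic differential of `f` at the cusp `0` is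
not in `2 w Λ`, where `Λ ≅ ℤ` is the group of the values of `Φ` at the cusps `x/m`, `m` prime to the level, and `w` is
`4` for `K = ℚ(i)` and `2` otherwise.  (So `L(E/K, 1) = A Φ(0) ≠ 0`, `A = (2π/|δ|)²/#𝓞^×`.)

A place `v ∤ 2(4a³ + 27b²)` of `K` is admissible if `x³ + a x + b` has no root modulo `v`.  The theorem is on
all finite Galois extensions `F/K` of `2`-power degree, with any Galois group, which are unramified outside of the
admissible places and in which the places `v ∣ 2(4a³ + 27b²)` split completely: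

* `E(F)` is finite of odd order, and `Ш(E/F)[2^∞] = 0`;
* for all characters `χ` of `2`-power order of `K` whose conductor is a product of different admissible places, `L(E ⊗ χ, s)`
  is entire, and `τ L(E ⊗ χ, 1) = u L(E/K, 1) ≠ 0` where `τ` is an algebraic integer with `|τ|² = N(cond χ)` (a
  Gauss sum) and `u` is an algebraic number which is a unit at all primes above `2`;
* if `F/K` is abelian, `L(E/F, s)` is entire, and `τ L(E/F, 1) = u L(E/K, 1)^[F:K] ≠ 0` with `|τ|² = N(d_{F/K})` and a unit `u`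
  at the primes above `2`.

So the first part of the conjecture of Birch and Swinnerton-Dyer is true for `E` over all the abelian `F`, with both sides
zero, and the `2`-part of the exact formula for `L(E/F, 1)` is equivalent to the `2`-part of the formula for
`L(E/K, 1)`: the period of `E/F` is that of `E/K` to the power `[F:K]`, divided by `N(d_{F/K})^(1/2)`, the Tamagawa numbers
of `E/F` are those of `E/K`, each repeated `[F:K]` times (the bad places split completely, and places of good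
reduction stay good), and `E(F)`, `E(K)` have odd order and `Ш(E/F)`, `Ш(E/K)` have no elements of order two.  For
`F = K(√D)`, `D ∈ ℚ`, see `BianchiRankZero`; here the degree and the exponent of the Galois group are not bounded.
(Numerically the central value is odd, for instance, for `y² + (1+i)xy + y = x³ + (1+i)x² + 2ix + i` over `ℚ(i)`, with
conductor a prime of norm `757`; this is not a `ℚ`-curve.)

The proof.  The statements on points and on `Ш` follow from a descent: with `L = K(θ)` the cubic field of `E` and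
`M = F L`, let `z ∈ M^×/squares` be in the `2`-Selmer group of `E/F`.  If it is not trivial then, as the Galois group `G` is a
`2`-group, there is a nontrivial class fixed by `G`.  By the theorem 90 of Hilbert (for the cocycle of the square roots
of `σ(z)/z`, with the signs normalised by the norm to `F`) it is the class of an element of `L`, which is in the Selmer
group of `E/K`.  The central values are, up to the factor `A` and the Gauss sum, the sums `∑ conj χ(x) Φ(x/m)`;
they are congruent to the odd multiple `∑ Φ(x/m)`, `x` prime to `m`, of `Φ(0)` modulo `w λ Λ` for all primes `λ` above `2` of the ring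
of all algebraic integers, as `χ` is `1` modulo `λ` and `Φ(u z, t) = Φ(z, t)` for units `u`.
-/

set_option autoImplicit false

open NumberField IsDedekindDomain Matrix Filter Topology
open scoped TensorProduct

namespace Pool.Agent.Results.MP_1a91b9_nt.BianchiTwoExtensions

/-- `K` is an imaginary quadratic field, `σ` is one of its two embeddings in `ℂ`, and `δ` generates the
different of `K`: an `x ∈ K` is in `𝓞` if and only if `Tr(x y / δ) ∈ ℤ` for all `y ∈ 𝓞`. -/
structure IsFieldData (K : Type) [Field K] [NumberField K] (σ : K →+* ℂ) (δ : K) : Prop where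
  quadratic : Module.finrank ℚ K = 2
  imaginary : ∃ x, (starRingEnd ℂ) (σ x) ≠ σ x
  different : ∀ x : K, (∃ a : 𝓞 K, (a : K) = x) ↔
    ∀ y : 𝓞 K, ∃ m : ℤ, Algebra.trace ℚ K (x * y / δ) = m

/-- `h(y) = ∫_0^∞ exp(-1/v - y v) dv = 2 y^(-1/2) K₁(2 √y)`, with the Bessel function `K₁`. -/
noncomputable def bessel (y : ℝ) : ℝ := ∫ v in Set.Ioi (0 : ℝ), Real.exp (-(1 / v) - y * v)

/-- The additive character `e(z) = exp(2πi (z/δ + conj (z/δ)))` of `ℂ`, trivial on `𝓞`. -/
noncomputable def addChar (δ z : ℂ) : ℂ :=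
  Complex.exp (2 * Real.pi * Complex.I * (z / δ + (starRingEnd ℂ) (z / δ)))

/-- The denominator `|c z + d|² + |c|² t²` of the action of the matrix `(a, b; c, d)` on the hyperbolic
space `{(z, t) : z ∈ ℂ, t > 0}`. -/
noncomputable def den (c d z : ℂ) (t : ℝ) : ℝ := ‖c * z + d‖ ^ 2 + ‖c‖ ^ 2 * t ^ 2

/-- The first coordinate `((a z + b) conj (c z + d) + a conj(c) t²) / (|c z + d|² + |c|² t²)` of the image
of `(z, t)` under the matrix `(a, b; c, d)`. -/
noncomputable def actZ (a b c d z : ℂ) (t : ℝ) : ℂ :=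
  ((a * z + b) * (starRingEnd ℂ) (c * z + d) + a * (starRingEnd ℂ) c * (t : ℂ) ^ 2) /
    (den c d z t : ℂ)

/-- The second coordinate, for a matrix of determinant one; in general it is `|ad - bc|` times this. -/
noncomputable def actT (c d z : ℂ) (t : ℝ) : ℝ := t / den c d z t

/-- `V_j(t, q) = α^j + β^j` for `α + β = t`, `α β = q`. -/
noncomputable def lucas (t q : ℂ) : ℕ → ℂ
  | 0 => 2
  | 1 => t
  | (j + 2) => t * lucas t q (j + 1) - q * lucas t q j

section field
variable {K : Type} [Field K] [NumberField K]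

/-- The function `Φ(z, t) = ∑_{x ∈ 𝓞} c((x)) t² h(N(x) (2πt/|δ|)²) e(x z)
  = (|δ|/π) ∑_{x ≠ 0} (c((x))/|x|) t K₁(4π|x|t/|δ|) e(x z)` on the hyperbolic space, with the coefficients `c`.
Up to a constant factor it is the primitive, zero at the cusp `∞`, of the harmonic differential of the
form of weight two with the Fourier coefficients `c`: its derivative by `t` is
`-4 ∑_{x ≠ 0} c((x)) t K₀(4π|x|t/|δ|) e(x z)`. -/
noncomputable def primitive (σ : K →+* ℂ) (δ : K) (c : Ideal (𝓞 K) → ℂ) (z : ℂ) (t : ℝ) : ℂ :=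
  ∑' x : 𝓞 K, c (Ideal.span {x}) * ((t ^ 2 * bessel (Ideal.absNorm (Ideal.span {x}) *
    (2 * Real.pi * t / ‖σ δ‖) ^ 2) : ℝ) : ℂ) * addChar (σ δ) (σ x * z)

/-- The group `Λ` generated by the values of the primitive `Φ` at the cusps `x/m`, `m ≠ 0` prime to the level (that is,
by the limits of `Φ(x/m, t)` for `t → 0`). -/
def Lam (σ : K →+* ℂ) (δ : K) (n : 𝓞 K) (c : Ideal (𝓞 K) → ℂ) : AddSubgroup ℂ :=
  AddSubgroup.closure {z | ∃ x m : 𝓞 K, m ≠ 0 ∧ IsCoprime m n ∧
    Tendsto (fun t => primitive σ δ c (σ x / σ m) t) (𝓝[>] 0) (𝓝 z)}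

/-- The numbers `c(I)` are the Hecke eigenvalues of a Bianchi newform `f` of weight two, level `(n)` and
trivial character over `K`, with rational eigenvalues: they satisfy `c(𝓞) = 1`, the (trivial) bound `c(I) = O(N(I))`
and the Hecke relations `c(v I) = c(v) c(I)` for `v ∤ I`, `c(v² I) = c(v) c(v I) - N(v) c(I)` for the primes `v ∤ n`, and
`c(v I) = c(v) c(I)` for `v ∣ n`; the differential `dΦ` of the function `Φ` with the coefficients `c` is
invariant under `Γ₀(n)`, that is, `Φ(γ P) - Φ(P)` is a constant for every `γ ∈ Γ₀(n)`; `dΦ` is an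
eigenform, with the eigenvalue `±1`, of the Fricke involution `W = (0, -1; n, 0)`; and the group `Λ` of the values of `Φ` at
cusps is cyclic (this is so for rational eigenvalues, by multiplicity one and the theorem of Manin, Drinfeld and
Kurčanov: the quotient of `H₁(Γ₀(n), cusps; ℤ)` which belongs to `f` has rank one). -/
structure IsNewform (σ : K →+* ℂ) (δ : K) (n : 𝓞 K) (c : Ideal (𝓞 K) → ℂ) : Prop where
  level : n ≠ 0
  zero : c ⊥ = 0
  one : c ⊤ = 1
  bound : ∃ C : ℝ, ∀ I, ‖c I‖ ≤ C * Ideal.absNorm I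
  good : ∀ v : HeightOneSpectrum (𝓞 K), n ∉ v.asIdeal → ∀ I,
    (¬ v.asIdeal ∣ I → c (v.asIdeal * I) = c v.asIdeal * c I) ∧
    c (v.asIdeal * (v.asIdeal * I)) = c v.asIdeal * c (v.asIdeal * I) -
      Ideal.absNorm v.asIdeal * c I
  bad : ∀ v : HeightOneSpectrum (𝓞 K), n ∈ v.asIdeal → ∀ I,
    c (v.asIdeal * I) = c v.asIdeal * c I
  invariant : ∃ κ : SpecialLinearGroup (Fin 2) (𝓞 K) → ℂ,
    ∀ γ : SpecialLinearGroup (Fin 2) (𝓞 K), n ∣ γ.1 1 0 → ∀ (z : ℂ) (t : ℝ), 0 < t →
      primitive σ δ c (actZ (σ (γ.1 0 0)) (σ (γ.1 0 1)) (σ (γ.1 1 0)) (σ (γ.1 1 1)) z t)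
        (actT (σ (γ.1 1 0)) (σ (γ.1 1 1)) z t) = primitive σ δ c z t + κ γ
  fricke : ∃ w κ : ℂ, w * w = 1 ∧ ∀ (z : ℂ) (t : ℝ), 0 < t →
    primitive σ δ c (actZ 0 (-1) (σ n) 0 z t) (‖σ n‖ * actT (σ n) 0 z t) =
      -w * primitive σ δ c z t + κ
  cyclic : ∃ ω ∈ Lam σ δ n c, ∀ l ∈ Lam σ δ n c, ∃ j : ℤ, l = j * ω

/-- The number `w` of the `u ∈ 𝓞` with `u⁴ = 1`: it is `4` for `K = ℚ(i)` and `2` otherwise. -/
noncomputable def fourth (K : Type) [Field K] : ℕ := Nat.card {u : 𝓞 K // u ^ 4 = 1}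

/-- The central value is odd: `Φ(0)`, the limit of `Φ(0, t)` for `t → 0`, is not in `2 w Λ`. -/
def OddCentralValue (σ : K →+* ℂ) (δ : K) (n : 𝓞 K) (c : Ideal (𝓞 K) → ℂ) : Prop :=
  ∃ z₀ : ℂ, Tendsto (fun t => primitive σ δ c 0 t) (𝓝[>] 0) (𝓝 z₀) ∧
    ∀ y ∈ Lam σ δ n c, z₀ ≠ 2 * fourth K * y

/-- The number of the affine points of `y² = x³ + a x + b` over the residue field of `v`. -/
noncomputable def points (a b : 𝓞 K) (v : HeightOneSpectrum (𝓞 K)) : ℕ :=
  Nat.card {x : (𝓞 K ⧸ v.asIdeal) × (𝓞 K ⧸ v.asIdeal) //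
    x.2 ^ 2 = x.1 ^ 3 + (Ideal.Quotient.mk v.asIdeal a) * x.1 + (Ideal.Quotient.mk v.asIdeal b)}

/-- `f` is the newform of `E : y² = x³ + a x + b`: for `v ∤ 2(4a³ + 27b²)` (so that `E` has good reduction at `v`)
the level is prime to `v` and `c(v) = N(v) + 1 - #E(𝓞/v)`. -/
def IsNewformOf (a b n : 𝓞 K) (c : Ideal (𝓞 K) → ℂ) : Prop :=
  ∀ v : HeightOneSpectrum (𝓞 K), 2 * (4 * a ^ 3 + 27 * b ^ 2) ∉ v.asIdeal →
    n ∉ v.asIdeal ∧ c v.asIdeal = (Ideal.absNorm v.asIdeal : ℂ) - points a b v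

section selmer
variable {L : Type} [Field L] [NumberField L] [Algebra K L]

/-- `L = K(θ)` is the cubic field of `E`: `θ³ + a θ + b = 0`, and every element of `L` is `u + v θ + w θ²` for
unique `u, v, w ∈ K`.  So `x³ + a x + b` is irreducible over `K`, that is, `E(K)[2] = 0`. -/
structure IsCubicField (a b : 𝓞 K) (θ : L) : Prop where
  root : θ ^ 3 + algebraMap K L a * θ + algebraMap K L b = 0
  basis : ∀ β : L, ∃! t : K × K × K,
    β = algebraMap K L t.1 + algebraMap K L t.2.1 * θ + algebraMap K L t.2.2 * θ ^ 2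

/-- The class of `α` in `(K_v ⊗ L)^×` modulo squares is in the group generated by the images of the points
`(x, y)`, `y ≠ 0`, of `E(K_v)` under the Kummer map `(x, y) ↦ x - θ`.  (This group is the image of `E(K_v)/2E(K_v)`, as
the map is a homomorphism and all classes contain points with `y ≠ 0`.) -/
def LocalCondition (a b : 𝓞 K) (θ : L) (v : HeightOneSpectrum (𝓞 K)) (α : L) : Prop :=
  ∃ s : List (v.adicCompletion K),
    (∀ x ∈ s, ∃ y : v.adicCompletion K, y ≠ 0 ∧
      y ^ 2 = x ^ 3 + algebraMap K (v.adicCompletion K) a * x +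
        algebraMap K (v.adicCompletion K) b) ∧
    IsSquare (((1 : v.adicCompletion K) ⊗ₜ[K] α) *
      (s.map fun x => x ⊗ₜ[K] (1 : L) - 1 ⊗ₜ[K] θ).prod)

/-- The `2`-Selmer group of `E/K` is trivial.  As `E(K)[2] = 0` and `K` has no real places, it is the group of the
classes of `α ∈ L^×` modulo squares such that the norm of `α` is a square, `w(α)` is even for all places
`w ∤ 2(4a³ + 27b²)` of `L`, and `α` satisfies the local conditions at the places `v ∣ 2(4a³ + 27b²)` of `K`. -/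
def TrivialSelmer (a b : 𝓞 K) (θ : L) : Prop :=
  ∀ α : L, α ≠ 0 → IsSquare (Algebra.norm K α) →
    (∀ w : HeightOneSpectrum (𝓞 L), algebraMap (𝓞 K) (𝓞 L) (2 * (4 * a ^ 3 + 27 * b ^ 2)) ∉
      w.asIdeal → IsSquare (w.valuation L α)) →
    (∀ v : HeightOneSpectrum (𝓞 K), 2 * (4 * a ^ 3 + 27 * b ^ 2) ∈ v.asIdeal →
      LocalCondition a b θ v α) → IsSquare α

end selmer

/-- The admissible places: `v ∤ 2(4a³ + 27b²)`, and `x³ + a x + b` has no root modulo `v`. -/
def Admissible (a b : 𝓞 K) (v : HeightOneSpectrum (𝓞 K)) : Prop :=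
  2 * (4 * a ^ 3 + 27 * b ^ 2) ∉ v.asIdeal ∧ ∀ x : 𝓞 K, x ^ 3 + a * x + b ∉ v.asIdeal

/-- `χ` is a character of `K` of `2`-power order and of conductor `∏_{v ∈ T} v`, as a function on `𝓞` (`K` has class
number one): a primitive character modulo the product of the `v ∈ T`, trivial on the units, and zero on the `x` which
are not prime to the conductor. -/
structure IsCharacter (T : Finset (HeightOneSpectrum (𝓞 K))) (χ : 𝓞 K → ℂ) : Prop where
  one : χ 1 = 1
  mul : ∀ x y, χ (x * y) = χ x * χ y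
  zero : ∀ x, χ x = 0 ↔ ∃ v ∈ T, x ∈ v.asIdeal
  periodic : ∀ x y, (∀ v ∈ T, x - y ∈ v.asIdeal) → χ x = χ y
  units : ∀ u, IsUnit u → χ u = 1
  primitive : ∀ v ∈ T, ∃ x, (∀ v' ∈ T, v' ≠ v → x - 1 ∈ v'.asIdeal) ∧ χ x ≠ 0 ∧ χ x ≠ 1
  order : ∃ k : ℕ, ∀ x, χ x ≠ 0 → χ x ^ 2 ^ k = 1

open Classical in
/-- The numbers `a_v` of `E`: `N(v) + 1 - #E(𝓞/v)` for `v ∤ 2(4a³ + 27b²)`, and the eigenvalues of `f` for the others. -/
noncomputable def coeff (a b : 𝓞 K) (c : Ideal (𝓞 K) → ℂ) (v : HeightOneSpectrum (𝓞 K)) : ℂ :=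
  if 2 * (4 * a ^ 3 + 27 * b ^ 2) ∈ v.asIdeal then c v.asIdeal
  else (Ideal.absNorm v.asIdeal : ℂ) - points a b v

/-- `χ(v)` is the value of `χ` at a generator of `v`. -/
noncomputable def at' (χ : 𝓞 K → ℂ) (v : HeightOneSpectrum (𝓞 K)) [IsPrincipalIdealRing (𝓞 K)] : ℂ :=
  χ (Submodule.IsPrincipal.generator v.asIdeal)

variable [IsPrincipalIdealRing (𝓞 K)]

open Classical in
/-- The Euler factor `(1 - a_v χ(v) N(v)^(-s) + χ(v)² N(v)^(1-2s))⁻¹` of `L(E ⊗ χ, s)` at `v`, without the last term if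
`v` divides the level. -/
noncomputable def factor (a b n : 𝓞 K) (c : Ideal (𝓞 K) → ℂ) (χ : 𝓞 K → ℂ) (s : ℂ)
    (v : HeightOneSpectrum (𝓞 K)) : ℂ :=
  (1 - coeff a b c v * at' χ v * (Ideal.absNorm v.asIdeal : ℂ) ^ (-s) +
    (if n ∈ v.asIdeal then 0 else at' χ v ^ 2 * (Ideal.absNorm v.asIdeal : ℂ) ^ (1 - 2 * s)))⁻¹

/-- `G` is the `L`-function of `E ⊗ χ`, continued to an entire function. -/
def IsLFunction (a b n : 𝓞 K) (c : Ideal (𝓞 K) → ℂ) (χ : 𝓞 K → ℂ) (G : ℂ → ℂ) : Prop :=
  Differentiable ℂ G ∧ ∀ s : ℂ, 2 < s.re → HasProd (factor a b n c χ s) (G s)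

section extension

variable (F : Type) [Field F] [NumberField F] [Algebra K F]

/-- The places `u` of `F` above `v`. -/
def Above (v : HeightOneSpectrum (𝓞 K)) : Type :=
  {u : HeightOneSpectrum (𝓞 F) // u.asIdeal.comap (algebraMap (𝓞 K) (𝓞 F)) = v.asIdeal}

omit [IsPrincipalIdealRing (𝓞 K)] in
/-- `F/K` is a finite Galois extension of `2`-power degree, unramified outside of the admissible places of `K`, and the
places `v ∣ 2(4a³ + 27b²)` split completely in `F` (there is an embedding of `F` in `K_v`). -/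
structure IsTwoExtension (a b : 𝓞 K) : Prop where
  galois : IsGalois K F
  degree : ∃ k : ℕ, Module.finrank K F = 2 ^ k
  split : ∀ v : HeightOneSpectrum (𝓞 K), 2 * (4 * a ^ 3 + 27 * b ^ 2) ∈ v.asIdeal →
    Nonempty (F →ₐ[K] v.adicCompletion K)
  unramified : ∀ v : HeightOneSpectrum (𝓞 K), 2 * (4 * a ^ 3 + 27 * b ^ 2) ∉ v.asIdeal →
    ¬ Admissible a b v → ∀ u : Above F v, ∀ x : K,
      u.1.valuation F (algebraMap K F x) = v.valuation K x

/-- `F` is the class field of the group `𝒢` of characters `χ_g` (with values in `ℂ`) of `K` of `2`-power order, of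
conductors which are products of different admissible places.  The product `χ_g χ_h` is the primitive character
`χ_(gh)`; the order of `𝒢` is the degree of `F`; and the decomposition law holds: if `f_v` is the number of the different
values `χ_g(v) ≠ 0`, then the places of `F` above `v` have norm `N(v)^(f_v)`, and their number is `1/f_v` times the number of the
characters `χ_g` unramified at `v`. -/
structure IsClassField (a b : 𝓞 K) (𝒢 : Type) [CommGroup 𝒢]
    (T : 𝒢 → Finset (HeightOneSpectrum (𝓞 K))) (χ : 𝒢 → 𝓞 K → ℂ) : Prop where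
  character : ∀ g, IsCharacter (T g) (χ g)
  admissible : ∀ g, ∀ v ∈ T g, Admissible a b v
  injective : Function.Injective χ
  product : ∀ g h x, χ g x ≠ 0 → χ h x ≠ 0 → χ (g * h) x = χ g x * χ h x
  order : Nat.card 𝒢 = Module.finrank K F
  norm : ∀ (v : HeightOneSpectrum (𝓞 K)) (u : Above F v),
    Ideal.absNorm u.1.asIdeal =
      Ideal.absNorm v.asIdeal ^ Nat.card {z : ℂ // z ≠ 0 ∧ ∃ g, at' (χ g) v = z}
  number : ∀ v : HeightOneSpectrum (𝓞 K),
    Nat.card (Above F v) * Nat.card {z : ℂ // z ≠ 0 ∧ ∃ g, at' (χ g) v = z} =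
      Nat.card {g // at' (χ g) v ≠ 0}

omit [IsPrincipalIdealRing (𝓞 K)] in
open Classical in
/-- The Euler factor of `L(E/F, s)` at a place `u` of `F` of norm `Q = N(v)^f` above `v`, unramified over `v` or with good
reduction: with `(1 - α N(v)^(-s)) (1 - β N(v)^(-s))` the polynomial of `E` at `v` it is `((1 - α^f Q^(-s)) (1 - β^f Q^(-s)))⁻¹`, as the
Frobenius element of `u` is the power `f` of that of `v`. -/
noncomputable def factorAbove (a b n : 𝓞 K) (c : Ideal (𝓞 K) → ℂ) (v : HeightOneSpectrum (𝓞 K))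
    (Q : ℕ) (s : ℂ) : ℂ :=
  if n ∈ v.asIdeal then (1 - coeff a b c v ^ (Nat.log (Ideal.absNorm v.asIdeal) Q) *
    (Q : ℂ) ^ (-s))⁻¹
  else (1 - lucas (coeff a b c v) (Ideal.absNorm v.asIdeal)
    (Nat.log (Ideal.absNorm v.asIdeal) Q) * (Q : ℂ) ^ (-s) + (Q : ℂ) ^ (1 - 2 * s))⁻¹

omit [IsPrincipalIdealRing (𝓞 K)] in
/-- `G` is `L(E/F, s)`, continued to an entire function: for `Re s > 2` it is the product, over the places `v` of `K`, of the
products of the Euler factors of `E/F` at the places above `v`. -/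
def IsLFunctionOver (a b n : 𝓞 K) (c : Ideal (𝓞 K) → ℂ) (G : ℂ → ℂ) : Prop :=
  Differentiable ℂ G ∧ ∀ s : ℂ, 2 < s.re →
    HasProd (fun v : HeightOneSpectrum (𝓞 K) =>
      ∏ᶠ u : Above F v, factorAbove a b n c v (Ideal.absNorm u.1.asIdeal) s) (G s)

/-- The curve `E` over `F`. -/
def curve (a b : 𝓞 K) : WeierstrassCurve F :=
  ⟨0, 0, 0, algebraMap K F a, algebraMap K F b⟩

end extension

end field

/-- Let `K` be an imaginary quadratic field of class number one and `E : y² = x³ + a x + b` an elliptic curve over `K`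
with `E(K)[2] = 0`, with the Bianchi newform `f`, with trivial `2`-Selmer group and with odd central value.
(1) For all finite Galois extensions `F/K` of `2`-power degree, unramified outside of the admissible places, in which the
places `v ∣ 2(4a³ + 27b²)` split completely, `E(F)` is finite of odd order and `Ш(E/F)` has no elements of
`2`-power order except `0`.
Let `G₀(s) = L(E/K, s)`; then `G₀(1) ≠ 0`.
(2) For all characters `χ` of `2`-power order with conductor a product of different admissible places, `L(E ⊗ χ, s)` is entire, and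
`L(E ⊗ χ, 1) ≠ 0`.  More exactly, `k τ L(E ⊗ χ, 1) = x L(E/K, 1)` with an odd integer `k`, an algebraic
integer `τ` with `|τ|² = N(cond χ)`, and an algebraic integer `x` prime to `2`.
(3) If `F` is as in (1) and the class field of a group of such characters (so that `F/K` is abelian), `L(E/F, s)` is entire,
and `L(E/F, 1) ≠ 0` (and `E(F)` is finite, by (1)).  More exactly, `k τ L(E/F, 1) = x L(E/K, 1)^[F:K]`
with an odd integer `k`, an algebraic integer `τ` for which `|τ|²` is the product of the norms of the conductors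
(that is, the norm of the discriminant of `F/K`), and an algebraic integer `x` prime to `2`. -/
theorem result (K : Type) [Field K] [NumberField K] [IsPrincipalIdealRing (𝓞 K)] (σ : K →+* ℂ)
    (δ : K) (hK : IsFieldData K σ δ) (a b : 𝓞 K) (hΔ : 4 * a ^ 3 + 27 * b ^ 2 ≠ 0) (n : 𝓞 K)
    (c : Ideal (𝓞 K) → ℂ) (hf : IsNewform σ δ n c) (hE : IsNewformOf a b n c)
    (hodd : OddCentralValue σ δ n c) (L : Type) [Field L] [NumberField L] [Algebra K L] (θ : L)
    (hθ : IsCubicField a b θ) (hS : TrivialSelmer a b θ) :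
    (∀ (F : Type) [Field F] [NumberField F] [Algebra K F], IsTwoExtension F a b →
      Finite (curve F a b).toAffine.Point ∧ Odd (Nat.card (curve F a b).toAffine.Point) ∧
      ∀ (k : ℕ) (x : Pool.Agent.TH841.NF.D.Sha (curve F a b)), (2 ^ k : ℕ) • x = 0 → x = 0) ∧
    ∃ G₀ : ℂ → ℂ, IsLFunction a b n c (fun _ => 1) G₀ ∧ G₀ 1 ≠ 0 ∧
      (∀ (T : Finset (HeightOneSpectrum (𝓞 K))) (χ : 𝓞 K → ℂ), IsCharacter T χ →
        (∀ v ∈ T, Admissible a b v) →
        ∃ (G : ℂ → ℂ) (τ x : integralClosure ℤ ℂ) (k : ℤ), IsLFunction a b n c χ G ∧ G 1 ≠ 0 ∧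
          Odd k ∧ ‖(τ : ℂ)‖ ^ 2 = ∏ v ∈ T, (Ideal.absNorm v.asIdeal : ℝ) ∧ IsCoprime x 2 ∧
          k * τ * G 1 = x * G₀ 1) ∧
      (∀ (F : Type) [Field F] [NumberField F] [Algebra K F] (𝒢 : Type) [CommGroup 𝒢] [Finite 𝒢]
        (T : 𝒢 → Finset (HeightOneSpectrum (𝓞 K))) (χ : 𝒢 → 𝓞 K → ℂ),
        IsTwoExtension F a b → IsClassField F a b 𝒢 T χ →
        ∃ (G : ℂ → ℂ) (τ x : integralClosure ℤ ℂ) (k : ℤ), IsLFunctionOver F a b n c G ∧ G 1 ≠ 0 ∧
          Odd k ∧ ‖(τ : ℂ)‖ ^ 2 = ∏ᶠ g, ∏ v ∈ T g, (Ideal.absNorm v.asIdeal : ℝ) ∧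
          IsCoprime x 2 ∧ k * τ * G 1 = x * G₀ 1 ^ Module.finrank K F) := by
  classical
  have h : K4H55.BI.IQ K σ δ := ⟨hK.quadratic, hK.imaginary, inferInstance, hK.different⟩
  have hf' : K4H55.BI.BF σ δ n c := ⟨hf.level, hf.zero, hf.one, hf.bound, hf.good, hf.bad,
    hf.invariant, hf.fricke⟩
  have hcub : K4H55.BD.Cub K θ := by
    refine ⟨fun p q r h0 => ?_, fun β => ?_⟩
    · obtain ⟨t, ht, hu⟩ := hθ.basis 0
      have h1 := hu (p, q, r) h0.symm
      have h2 := hu (0, 0, 0) (by simp)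
      have h3 := h1.trans h2.symm
      simp only [Prod.mk.injEq] at h3
      exact h3
    · obtain ⟨t, ht, -⟩ := hθ.basis β
      exact ⟨t.1, t.2.1, t.2.2, ht⟩
  have hcoeff : ∀ v : HeightOneSpectrum (𝓞 K), coeff a b c v = c v.asIdeal := by
    intro v
    unfold coeff
    split_ifs with h1
    · rfl
    · exact (hE v h1).2.symm
  have hluc : ∀ (t q : ℂ) (j : ℕ), lucas t q j = K4H55.CX.luc t q j := by
    intro t q j
    induction j using Nat.twoStepInduction with
    | zero => rfl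
    | one => rfl
    | more j h1 h2 => rw [lucas, K4H55.CX.luc, h1, h2]
  have hadm : ∀ v, Admissible a b v → (2 : 𝓞 K) ∉ v.asIdeal ∧ n ∉ v.asIdeal ∧
      ∃ m : ℤ, c v.asIdeal = m ∧ m % 2 = 1 := by
    intro v hv
    have h2 : (2 : 𝓞 K) ∉ v.asIdeal := fun h2 => hv.1 (v.asIdeal.mul_mem_right _ h2)
    refine ⟨h2, (hE v hv.1).1, (Ideal.absNorm v.asIdeal : ℤ) - points a b v, ?_, ?_⟩
    · rw [(hE v hv.1).2]
      push_cast
      ring
    · obtain ⟨k, hk⟩ := K4H55.BD.pv_even (a := a) (b := b) h2 hv.2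
      have hk' : points a b v = 2 * k := hk
      have h6 := K4H55.BM.norm_odd h2
      rw [Nat.odd_iff] at h6
      omega
  have hfac : ∀ (χ : 𝓞 K → ℂ) (s : ℂ), factor a b n c χ s = K4H55.CX.efx n c χ s := by
    intro χ s
    funext v
    unfold factor K4H55.CX.efx
    rw [hcoeff]
    rfl
  have hch : ∀ (T : Finset (HeightOneSpectrum (𝓞 K))) (χ : 𝓞 K → ℂ), IsCharacter T χ →
      K4H55.CX.CH T χ := fun T χ h1 =>
    ⟨h1.one, h1.mul, h1.zero, h1.periodic, h1.units, h1.primitive, h1.order⟩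
  obtain ⟨ω, hω', hω⟩ := hf.cyclic
  obtain ⟨z, hz, hzo⟩ := hodd
  refine ⟨fun F _ _ _ hF => ?_, ?_⟩
  · have hG := hF.galois
    obtain ⟨k, hk⟩ := hF.degree
    obtain ⟨h1, h2, -⟩ := K4H55.CX.fin_up (F := F) hΔ hcub hθ.root hS hk hF.split (fun u hu => by
      by_cases h3 : ∀ X : 𝓞 K, X ^ 3 + a * X + b ∉ (K4H55.BD.low (K := K) u).asIdeal
      · exact Or.inl h3
      · exact Or.inr fun x => hF.unramified _ hu (fun h4 => h3 h4.2) ⟨u, rfl⟩ x)
    exact ⟨h1.1, h1.2, h2⟩
  · have h1T : K4H55.CX.CH (∅ : Finset (HeightOneSpectrum (𝓞 K))) (fun _ => (1 : ℂ)) :=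
      { one := rfl
        mul := fun x y => by norm_num
        zero := fun x => by simp
        prd := fun _ _ _ => rfl
        unit := fun _ _ => rfl
        prim := fun v hv => absurd hv (Finset.notMem_empty v)
        pow := ⟨0, fun _ _ => by simp⟩ }
    obtain ⟨G₀, h1, h2, h3⟩ := K4H55.CX.chr_one h hf' hz
    have hz0 : z ≠ 0 := by
      have := hzo 0 (AddSubgroup.zero_mem _)
      rwa [mul_zero] at this
    have hG0 : G₀ 1 ≠ 0 := by
      rw [h3]
      exact mul_ne_zero (K4H55.CX.A_ne h) hz0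
    refine ⟨G₀, ⟨h1, fun s hs => by rw [hfac]; exact h2 s hs⟩, hG0, fun T χ hχ hT => ?_,
      fun F _ _ _ 𝒢 _ _ T χ hF hcf => ?_⟩
    · obtain ⟨G, τ, x, k, g1, g2, g3, g4, g5, g6⟩ := K4H55.CX.chr_unit h hf' (hch T χ hχ)
        (fun v hv => hadm v (hT v hv)) hz hω hω' hzo
      rw [← h3] at g6
      refine ⟨G, τ, x, k, ⟨g1, fun s hs => by rw [hfac]; exact g2 s hs⟩, ?_, g3, g4, g5, g6⟩
      refine K4H55.CX.ne_of_unit (m := 1) (τ := τ) (k := k) g5 hG0 ?_
      rw [pow_one]
      exact g6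
    · obtain ⟨G, τ, x, k, g1, g2, g3, g4, g5, g6⟩ := K4H55.CX.ab_unit (F := F) h hf'
        (T := T) (χ := χ) ⟨fun g => hch _ _ (hcf.character g), hcf.product⟩
        ⟨fun v u hu => hcf.norm v ⟨u, hu⟩, hcf.number⟩
        (fun g v hv => hadm v (hcf.admissible g v hv)) hz hω hω' hzo
      rw [← h3, hcf.order] at g6
      refine ⟨G, τ, x, k, ⟨g1, fun s hs => ?_⟩, K4H55.CX.ne_of_unit g5 hG0 g6, g3, g4, g5, g6⟩
      have e : ∀ (v : HeightOneSpectrum (𝓞 K)) (Q : ℕ),
          factorAbove a b n c v Q s = K4H55.CX.facF n c v Q s := by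
        intro v Q
        unfold factorAbove K4H55.CX.facF
        rw [hcoeff, hluc]
      simp only [e]
      exact g2 s hs

end Pool.Agent.Results.MP_1a91b9_nt.BianchiTwoExtensions
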