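import Pool.Agent.K4H53.BSX.Q11
import Pool.Agent.K4H53.CX.Fin

/-!
# The Birch and Swinnerton-Dyer formula modulo 2 over abelian 2-extensions, all conductors

`W` is the minimal equation of an elliptic curve `E` over `ℚ` such that `a_q(E)` is odd for some odd prime
`q` of good reduction, and such that the periods of the newform of `E` are in an odd multiple of the period
lattice of `E` (these are the conditions `Good`).  `K` is an abelian extension of `ℚ` of degree `2^k` (a
subfield of degree `2^k` of any cyclotomic field); the primes that ramify in `K` are arbitrary, only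
additive reduction at a ramified prime is excluded (`Mult`).  So if `E` is semistable then `K` is ANY abelian
extension of `ℚ` of 2-power degree.  For `F = ℚ` and for `F = K` let
`x(F) = L(E/F, 1) √|Δ_F| #E(F)_tors² / Ω`.  The formula of Birch and Swinnerton-Dyer modulo 2 says that
`x(F)` is rational with odd denominator, and that its numerator is odd if and only if the rank of `E(F)` is
zero, `Ш(E/F)[2^∞] = 0` and the Tamagawa numbers are odd.

Let `A` be the statement: `K` is totally real if `Δ > 0`; all primes `l` that ramify in `K` are primes of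
good reduction; `a_l` is odd if `l` is odd; if `l = 2` then `a_2` is even and `2^([K : ℚ] + 1)` does not
divide the discriminant of `K` (this means that the conductor of `K` is not divisible by `8`).  Let `A₀` be
the same statement without a condition at the primes of bad reduction.  We prove (`Compare`)

* the equation is minimal over `K`; the Tamagawa product over `K` is even if a prime of bad reduction
  ramifies in `K`, otherwise it has the same parity as the Tamagawa product over `ℚ`;
* `x(ℚ)` and `x(K)` have odd denominators, and `x(K)` is odd if and only if `x(ℚ)` is odd and `A` holds;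
* if `rank E(K) = 0` and `Ш(E/K)[2^∞] = 0` then `rank E(ℚ) = 0`, `Ш(E/ℚ)[2^∞] = 0` and `A₀` holds; the
  converse holds if the Tamagawa numbers over `ℚ` are odd and `A` holds.

So the formula modulo 2 over `ℚ` implies the formula modulo 2 over all such fields `K`; the converse holds
if `A` holds; and if `A` does not hold the formula holds over `K` without an assumption on `E` over `ℚ`.

For `E = X_0(11)` the hypotheses are proved, also the formula modulo 2 over `ℚ`, so for this curve the
formula modulo 2 holds over ALL abelian extensions of `ℚ` of 2-power degree, without any hypothesis, and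
both sides are computed.

Earlier results of this kind needed conductors prime to `Δ`, and not divisible by `8`, and that two is
unramified or of supersingular reduction.  The new points:

* the modular symbols at all cusps: the sum of the symbols `{i∞ → u / q}` over the units `u` modulo `q` for
  `q` not prime to the level, the Hecke operators `T_2`, `U_p`, and the integrality of the symbols at cusps
  that are equivalent to `u / q` under `Γ₀(N)`;
* the twisted `L`-functions for conductors that are not prime to the level, by Mellin transforms at the cusps;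
* the conductor-discriminant formula for all subfields of all cyclotomic fields, from the different of
  `𝓞[ζ]`;
* ordinary reduction at a ramified place above two, or conductor divisible by `8`: the Selmer group of `2`
  over `K` is not zero, by a point of `E` over `ℚ₂(√d)`, `d = -1, 2, -2`, whose class is not the class of a
  point over `ℚ₂` and becomes trivial over `K_v`, and a count of units in the cubic field of the points of
  order two;
* ramified places of multiplicative reduction: minimality, and the component group has even order.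
-/

set_option autoImplicit false

open NumberField NumberField.InfinitePlace IsDedekindDomain WeierstrassCurve MeasureTheory
open UpperHalfPlane MatrixGroups CongruenceSubgroup

namespace Pool.Agent.Results.MP_1a91b9_nt.FormulaModTwoAbelian

open scoped Classical

open Pool.Agent.TH841.NF.D (Sha)
open Pool.Agent.K4H53.BSX.D

/-- The equation `y² + y = x³ - x² - 10 x - 20` of the modular curve `X_0(11)`. -/
def X11 : WeierstrassCurve ℤ := ⟨0, -1, 1, -10, -20⟩

/-- The conditions on the curve: the equation `W` is minimal at all primes; there is a newform `f` of `W`,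
of a level `N` (with the same prime divisors as `Δ`; `p²` divides `N` exactly if `p` divides `c₄`, that is
if the reduction is additive), such that the periods of `2 π i f(z) dz` on `Γ₀(N)`, times an odd integer
`c`, are in the period lattice of the differential `dx / (2 y + a₁ x + a₃)` of `W`, which is the lattice
with `g₂ = c₄ / 12` and `g₃ = c₆ / 216` (the Manin constant is odd); and `a_q` is odd for some prime `q`
that does not divide `2 Δ`. -/
structure Good (W : WeierstrassCurve ℤ) : Prop where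
  ne : W.Δ ≠ 0
  min : ∀ p : HeightOneSpectrum (𝓞 ℚ), MinimalAt W p
  form : ∃ N : ℕ, N ≠ 0 ∧ ∃ f : CuspForm (Gamma0 N : Subgroup (GL (Fin 2) ℝ)) 2, IsNewform W N f ∧
    (∀ p : ℕ, p.Prime → p ∣ N → (p ^ 2 ∣ N ↔ (p : ℤ) ∣ W.c₄)) ∧
    ∃ Λ : PeriodPair, Λ.g₂ = (W.c₄ : ℂ) / 12 ∧ Λ.g₃ = (W.c₆ : ℂ) / 216 ∧
      ∃ c : ℤ, Odd c ∧ ∀ γ ∈ Gamma0 N, ∀ z : ℍ,
        (c : ℂ) * (prim f ((γ • z : ℍ) : ℂ) - prim f (z : ℂ)) ∈ Λ.lattice
  odd : ∃ q : ℕ, q.Prime ∧ ¬ (q : ℤ) ∣ 2 * W.Δ ∧ Odd ((q : ℤ) - pts W (ZMod q))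

section

variable (K : Type) [Field K] [NumberField K] (W : WeierstrassCurve ℤ)

/-- The reduction is not additive at the primes that ramify in `K`. -/
def Mult : Prop := ∀ l : ℕ, l.Prime → (l : ℤ) ∣ discr K → (l : ℤ) ∣ W.Δ → ¬ (l : ℤ) ∣ W.c₄

/-- The condition at a ramified prime `l` of good reduction. -/
def Cl (l : ℕ) : Prop :=
  (l ≠ 2 → Odd ((l : ℤ) - pts W (ZMod l))) ∧
    (l = 2 → Even ((l : ℤ) - pts W (ZMod l)) ∧ ¬ (2 : ℤ) ^ (Module.finrank ℚ K + 1) ∣ discr K)

/-- The statement `A`. -/
def A : Prop := (0 < W.Δ → IsTotallyReal K) ∧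
  ∀ l : ℕ, l.Prime → (l : ℤ) ∣ discr K → ¬ (l : ℤ) ∣ W.Δ ∧ Cl K W l

/-- The statement `A₀`. -/
def A₀ : Prop := (0 < W.Δ → IsTotallyReal K) ∧
  ∀ l : ℕ, l.Prime → (l : ℤ) ∣ discr K → ¬ (l : ℤ) ∣ W.Δ → Cl K W l

/-- The comparison of `ℚ` and `K`. -/
structure Compare : Prop where
  /-- the equation is minimal over `K` -/
  min : ∀ v : HeightOneSpectrum (𝓞 K), MinimalAt W v
  /-- almost all the Tamagawa numbers are one -/
  fin : {v : HeightOneSpectrum (𝓞 K) | c W v ≠ 1}.Finite ∧
    {p : HeightOneSpectrum (𝓞 ℚ) | c W p ≠ 1}.Finite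
  /-- the Tamagawa products, no ramified prime of bad reduction -/
  tam : (∀ l : ℕ, l.Prime → (l : ℤ) ∣ discr K → ¬ (l : ℤ) ∣ W.Δ) → (Odd (Tam K W) ↔ Odd (Tam ℚ W))
  /-- the Tamagawa product if a prime of bad reduction ramifies -/
  tam_bad : (∃ l : ℕ, l.Prime ∧ (l : ℤ) ∣ discr K ∧ (l : ℤ) ∣ W.Δ) → Even (Tam K W)
  /-- the torsion subgroups have odd order -/
  tors : Odd (Nat.card (tors K W)) ∧ Odd (Nat.card (Pool.Agent.K4H53.BSX.D.tors ℚ W))
  /-- the values -/
  value : ∃ x₀ x : ℚ, HasValue ℚ W x₀ ∧ HasValue K W x ∧ Odd x₀.den ∧ Odd x.den ∧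
    (Odd x.num ↔ Odd x₀.num ∧ A K W)
  /-- from `K` to `ℚ` -/
  down : (rank K W = 0 ∧ Sha2 K W = {0}) → (rank ℚ W = 0 ∧ Sha2 ℚ W = {0}) ∧ A₀ K W
  /-- from `ℚ` to `K` -/
  up : Odd (Tam ℚ W) → (rank ℚ W = 0 ∧ Sha2 ℚ W = {0}) ∧ A K W → (rank K W = 0 ∧ Sha2 K W = {0})
  /-- the formula modulo 2, from `ℚ` to `K` -/
  bsd : BSDModTwo ℚ W → BSDModTwo K W
  /-- the formula modulo 2, from `K` to `ℚ` -/
  bsd_conv : A K W → BSDModTwo K W → BSDModTwo ℚ W
  /-- the formula modulo 2 if `A` is false -/
  bsd_not : ¬ A K W → BSDModTwo K W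

variable {K W}

lemma a_iff : A K W ↔ (0 < W.Δ → IsTotallyReal K) ∧ Pool.Agent.K4H53.CX.AK W K := by
  refine and_congr_right fun _ => ?_
  constructor
  · intro h
    refine ⟨fun l hl hld hl2 => ⟨(h l hl hld).1, (h l hl hld).2.1 hl2⟩, fun h2 => ?_⟩
    obtain ⟨h3, -, h4⟩ := h 2 Nat.prime_two (by exact_mod_cast h2)
    obtain ⟨h5, h6⟩ := h4 rfl
    exact ⟨by exact_mod_cast h3, by exact_mod_cast h5, h6⟩
  · rintro ⟨h1, h2⟩ l hl hld
    by_cases hl2 : l = 2
    · subst hl2
      obtain ⟨h3, h4, h5⟩ := h2 (by exact_mod_cast hld)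
      exact ⟨by exact_mod_cast h3, fun h => absurd rfl h, fun _ => ⟨by exact_mod_cast h4, h5⟩⟩
    · obtain ⟨h3, h4⟩ := h1 l hl hld hl2
      exact ⟨h3, fun _ => h4, fun h => absurd h hl2⟩

lemma a0_iff : A₀ K W ↔ (0 < W.Δ → IsTotallyReal K) ∧ Pool.Agent.K4H53.CX.AG W K := by
  refine and_congr_right fun _ => ?_
  constructor
  · intro h
    refine ⟨fun l hl hld hl2 => ?_, fun h2 => ?_⟩
    · by_cases h3 : (l : ℤ) ∣ W.Δ
      · exact Or.inl h3
      · exact Or.inr ((h l hl hld h3).1 hl2)
    · by_cases h3 : (2 : ℤ) ∣ W.Δ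
      · exact Or.inl h3
      · obtain ⟨-, h4⟩ := h 2 Nat.prime_two (by exact_mod_cast h2) (by exact_mod_cast h3)
        obtain ⟨h5, h6⟩ := h4 rfl
        exact Or.inr ⟨by exact_mod_cast h5, h6⟩
  · rintro ⟨h1, h2⟩ l hl hld hlΔ
    by_cases hl2 : l = 2
    · subst hl2
      obtain ⟨h4, h5⟩ := (h2 (by exact_mod_cast hld)).resolve_left (by exact_mod_cast hlΔ)
      exact ⟨fun h => absurd rfl h, fun _ => ⟨by exact_mod_cast h4, h5⟩⟩
    · exact ⟨fun _ => (h1 l hl hld hl2).resolve_left hlΔ, fun h => absurd h hl2⟩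

end

lemma compare (W : WeierstrassCurve ℤ) (hW : Good W) (n : ℕ) [NeZero n]
    (M : Type) [Field M] [NumberField M] [IsCyclotomicExtension {n} ℚ M]
    (K : IntermediateField ℚ M) (k : ℕ) (hk : Module.finrank ℚ K = 2 ^ k) (hm : Mult K W) :
    Compare K W := by
  obtain ⟨N, hN, f, hf, hN2, Λ, hg₂, hg₃, hman⟩ := hW.form
  obtain ⟨q, hq, hqΔ, hqo⟩ := hW.odd
  have : NeZero N := ⟨hN⟩
  obtain ⟨⟨h1, h2, h3, h4, h5, h6, h7⟩, h8, h9, h10, h11, h12, h13⟩ :=
    Pool.Agent.K4H53.CX.main Pool.Agent.K4H53.CX.pp W hW.ne hW.min f hf hN2 Λ hg₂ hg₃ hman q hq hqΔ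
      hqo n M K k hk hm (A K W) a_iff
  exact ⟨h1, ⟨h2, h3⟩, h6, fun h => Nat.not_odd_iff_even.1 (h7 h), ⟨h4, h5⟩, h8,
    fun h => ⟨(h9 h).1, a0_iff.2 (h9 h).2⟩, h10, h11, h12, h13⟩

lemma good11 : Good X11 := by
  obtain ⟨Λ, h2, h3, hman⟩ := Pool.Agent.K4H53.BSX.Q11.man11
  refine ⟨Pool.Agent.K4H53.BSX.Q11.disc_ne, Pool.Agent.K4H53.BSX.Q11.min11, ⟨11, by norm_num,
    Pool.Agent.W97.TW.f11, Pool.Agent.K4H53.BSX.Q11.newform11, ?_, Λ, h2, h3, hman⟩, ⟨3, by norm_num,
    Pool.Agent.K4H53.BSX.Q11.not3, Pool.Agent.K4H53.BSX.a3_odd⟩⟩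
  intro p hp hp11
  obtain rfl : p = 11 := (Nat.prime_dvd_prime_iff_eq hp (by norm_num)).1 hp11
  have h4 : X11.c₄ = 496 := by decide
  rw [h4]
  constructor
  · intro h
    exact absurd h (by norm_num)
  · intro h
    exact absurd h (by norm_num)

/-- `P` holds for all the abelian extensions of `ℚ` of degree a power of two: for all the subfields `K` of
degree `2^k` of all the cyclotomic fields `M`. -/
def ForAllAbelian (P : ∀ (K : Type) [Field K] [NumberField K], Prop) : Prop :=
  ∀ (n : ℕ) [NeZero n] (M : Type) [Field M] [NumberField M] [IsCyclotomicExtension {n} ℚ M]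
    (K : IntermediateField ℚ M) (k : ℕ), Module.finrank ℚ K = 2 ^ k → P K

/-- The statements for the curve `X_0(11)` over `K`. -/
structure Eleven (K : Type) [Field K] [NumberField K] : Prop where
  /-- the formula modulo 2 -/
  bsd : BSDModTwo K X11
  /-- the Tamagawa numbers -/
  tam : Odd (Tam K X11) ↔ ¬ (11 : ℤ) ∣ discr K
  /-- a necessary condition for rank zero and trivial `Ш[2^∞]` -/
  down : (rank K X11 = 0 ∧ Sha2 K X11 = {0}) → A₀ K X11
  /-- it is sufficient if `11` does not ramify -/
  iff : ¬ (11 : ℤ) ∣ discr K → ((rank K X11 = 0 ∧ Sha2 K X11 = {0}) ↔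
    (∀ l : ℕ, l.Prime → (l : ℤ) ∣ discr K → l ≠ 2 → Odd ((l : ℤ) - pts X11 (ZMod l))) ∧
      ¬ (2 : ℤ) ^ (Module.finrank ℚ K + 1) ∣ discr K)

/-- **Main theorem.** First part: `W` is a minimal equation with the conditions `Good`, `K` is a subfield
of degree `2^k` of a cyclotomic field, and the primes of additive reduction do not ramify in `K`.  Second
part: `X_0(11)` satisfies the conditions, and the formula modulo 2 holds over all the subfields `K` of
degree `2^k` of all the cyclotomic fields. -/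
theorem result :
    (∀ W : WeierstrassCurve ℤ, Good W → ForAllAbelian fun K _ _ => Mult K W → Compare K W) ∧
    Good X11 ∧ ForAllAbelian fun K _ _ => Eleven K := by
  refine ⟨fun W hW n _ M _ _ _ K k hk hm => compare W hW n M K k hk hm, good11, ?_⟩
  intro n _ M _ _ _ K k hk
  obtain ⟨hQ, hTQ, hsQ⟩ := Pool.Agent.K4H53.BSX.Q11.bsd_Q
  have hd11 : ∀ l : ℕ, l.Prime → ((l : ℤ) ∣ X11.Δ ↔ l = 11) := by
    intro l hl
    have h1 := Pool.Agent.K4H53.BSX.dvd_disc hl
    constructor
    · intro h
      exact (Nat.prime_dvd_prime_iff_eq hl (by norm_num)).1 (h1.2 h)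
    · rintro rfl
      exact h1.1 dvd_rfl
  have hm : Mult K X11 := by
    intro l hl _ h
    obtain rfl := (hd11 l hl).1 h
    have h4 : X11.c₄ = 496 := by decide
    rw [h4]
    norm_num
  have h := compare X11 good11 n M K k hk hm
  have hlt : ¬ 0 < X11.Δ := not_lt.2 Pool.Agent.K4H53.BSX.Q11.disc_lt.le
  refine ⟨h.bsd hQ, ?_, fun h0 => (h.down h0).2, ?_⟩
  · by_cases h11 : (11 : ℤ) ∣ discr K
    · have h5 := h.tam_bad ⟨11, by norm_num, by exact_mod_cast h11, (hd11 11 (by norm_num)).2 rfl⟩
      constructor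
      · intro h6
        exact absurd h6 (Nat.not_odd_iff_even.2 h5)
      · intro h6
        exact absurd h11 h6
    · refine ⟨fun _ => h11, fun _ => (h.tam ?_).2 hTQ⟩
      intro l hl hld h6
      obtain rfl := (hd11 l hl).1 h6
      exact h11 (by exact_mod_cast hld)
  · intro h11
    have hnb : ∀ l : ℕ, l.Prime → (l : ℤ) ∣ discr K → ¬ (l : ℤ) ∣ X11.Δ := by
      intro l hl hld h6
      obtain rfl := (hd11 l hl).1 h6
      exact h11 (by exact_mod_cast hld)
    have h2 : ¬ (2 : ℤ) ^ (Module.finrank ℚ K + 1) ∣ discr K ∨ (2 : ℤ) ∣ discr K := by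
      by_cases h3 : (2 : ℤ) ^ (Module.finrank ℚ K + 1) ∣ discr K
      · exact Or.inr ((dvd_pow_self 2 (Nat.succ_ne_zero _)).trans h3)
      · exact Or.inl h3
    constructor
    · intro h0
      have h3 := (h.down h0).2.2
      refine ⟨fun l hl hld hl2 => (h3 l hl hld (hnb l hl hld)).1 hl2, ?_⟩
      rcases h2 with h2 | h2
      · exact h2
      · exact ((h3 2 Nat.prime_two (by exact_mod_cast h2)
          (hnb 2 Nat.prime_two (by exact_mod_cast h2))).2 rfl).2
    · rintro ⟨h3, h4⟩
      refine h.up hTQ ⟨hsQ, fun h1 => absurd h1 hlt, fun l hl hld => ⟨hnb l hl hld, h3 l hl hld, ?_⟩⟩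
      rintro rfl
      exact ⟨Pool.Agent.K4H53.BSX.a2_even, h4⟩

end Pool.Agent.Results.MP_1a91b9_nt.FormulaModTwoAbelian
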