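import Pool.Agent.K4H83.TR.TwoR

/-!
# The rank part of the Birch and Swinnerton-Dyer conjecture: semistable curves and curves with
one additive place

Let `E` be an elliptic curve over a number field `K`. A power of `L(E / K, s)` is, up to a
meromorphic factor of order `0` at `s = 1`, a product of integral powers of `L`-functions of
quadratic twists of `E` over finitely many extensions `F` of `K` of two kinds: twists which are
semistable at all places of `F`, and the curve `E` over fields `F` over which it has exactly one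
additive place `v`, where moreover `j(E)` is congruent to `0` or `1728` modulo `v` and no
quadratic twist of `E` is semistable at `v`. The same relation holds for the ranks. So the formula
`ord = rank` for these curves implies it for `E` over `K`. If `K` is totally real then all the
fields `F` can be taken totally real.
-/

set_option autoImplicit false

namespace Pool.Agent.Results.MP_1a91b9_nt.OneAdditivePlace

open scoped Classical Pointwise
open NumberField IsDedekindDomain WeierstrassCurve

section reduction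

variable {K : Type} [Field K]

/-- `x` is integral at the prime `P` -/
def IntegralAt (P : Ideal (𝓞 K)) (x : K) : Prop := ∃ a b : 𝓞 K, b ∉ P ∧ x * (b : K) = (a : K)

/-- `x` is a unit at the prime `P` -/
def UnitAt (P : Ideal (𝓞 K)) (x : K) : Prop :=
  ∃ a b : 𝓞 K, a ∉ P ∧ b ∉ P ∧ x * (b : K) = (a : K)

/-- `E` is semistable at the prime `P`, that is, it has good or multiplicative reduction at `P`:
some Weierstrass equation of `E` over `K` has coefficients which are integral at `P`, and its
discriminant or its `c₄` is a unit at `P`. -/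
def Semistable (E : WeierstrassCurve K) (P : Ideal (𝓞 K)) : Prop :=
  ∃ C : VariableChange K,
    IntegralAt P (C • E).a₁ ∧ IntegralAt P (C • E).a₂ ∧ IntegralAt P (C • E).a₃ ∧
    IntegralAt P (C • E).a₄ ∧ IntegralAt P (C • E).a₆ ∧
    (UnitAt P (C • E).Δ ∨ UnitAt P (C • E).c₄)

/-- `E` is semistable at all primes -/
def EverywhereSemistable (E : WeierstrassCurve K) : Prop :=
  ∀ P : Ideal (𝓞 K), P.IsMaximal → Semistable E P

/-- the quadratic twist `y² = x³ - 27 d² c₄ x - 54 d³ c₆` of `E` by `d` (isomorphic to `E` for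
`d = 1`) -/
def twist (E : WeierstrassCurve K) (d : K) : WeierstrassCurve K where
  a₁ := 0
  a₂ := 0
  a₃ := 0
  a₄ := -27 * d ^ 2 * E.c₄
  a₆ := -54 * d ^ 3 * E.c₆

/-- `x` is integral at `P` and congruent to `0` modulo `P` -/
def ZeroMod (P : Ideal (𝓞 K)) (x : K) : Prop :=
  ∃ a b : 𝓞 K, a ∈ P ∧ b ∉ P ∧ x * (b : K) = (a : K)

/-- The exceptional curves `E`, over an extension `F` of `K`. There is a prime `v` of `F` such
that no quadratic twist of `E` is semistable at `v`, the invariant `j = c₄³ / Δ` is congruent to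
`0` or `1728` modulo `v`, and `E` is semistable at all other primes of `F`. Moreover `E` has
semistable reduction over a finite cyclic extension `L` of `F` which contains the given extension
`M` of `K`, is unramified outside `v`, in which all primes above `m` other than `v` split
completely, and in which `v` is not decomposed; `L` is totally real if `K` and `M` are. -/
def Exceptional (K M : Type) [Field K] [Field M] [Algebra K M] (m : ℕ) (F : Type) [Field F]
    [NumberField F] [Algebra K F] (E : WeierstrassCurve F) : Prop :=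
  ∃ v : Ideal (𝓞 F), v.IsMaximal ∧ (∀ d : F, d ≠ 0 → ¬ Semistable (twist E d) v) ∧
    (ZeroMod v (E.c₄ ^ 3 / E.Δ) ∨ ZeroMod v (E.c₄ ^ 3 / E.Δ - 1728)) ∧
    (∀ P : Ideal (𝓞 F), P.IsMaximal → P ≠ v → Semistable E P) ∧
    ∃ (L : Type) (_ : Field L) (_ : NumberField L) (_ : Algebra F L) (_ : IsGalois F L),
      (IsTotallyReal K ∧ IsTotallyReal M → IsTotallyReal L) ∧ IsCyclic (L ≃ₐ[F] L) ∧
      (∃ φ : M →+* L, φ.comp (algebraMap K M) = (algebraMap F L).comp (algebraMap K F)) ∧
      (∀ Q : Ideal (𝓞 L), Q.IsMaximal → Semistable (E.map (algebraMap F L)) Q) ∧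
      (∀ Q : Ideal (𝓞 L), Q.IsMaximal → Q.comap (algebraMap (𝓞 F) (𝓞 L)) ≠ v →
        Q.inertia (L ≃ₐ[F] L) = ⊥) ∧
      (∀ Q : Ideal (𝓞 L), Q.IsMaximal → Q.comap (algebraMap (𝓞 F) (𝓞 L)) ≠ v →
        (m : 𝓞 L) ∈ Q → MulAction.stabilizer (L ≃ₐ[F] L) Q = ⊥) ∧
      (∀ Q : Ideal (𝓞 L), Q.IsMaximal → Q.comap (algebraMap (𝓞 F) (𝓞 L)) = v →
        MulAction.stabilizer (L ≃ₐ[F] L) Q = ⊤)

end reduction

section lfunction

variable {K : Type} [Field K] [NumberField K]

/-- `V` is a Weierstrass equation of `E` with coefficients in the ring of integers -/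
def IsEquation (E : WeierstrassCurve K) (V : WeierstrassCurve (𝓞 K)) : Prop :=
  ∃ C : VariableChange K, C • E = V.map (algebraMap (𝓞 K) K)

/-- `V` is an integral equation of `E` which is minimal at `v` -/
def MinimalAt (E : WeierstrassCurve K) (v : HeightOneSpectrum (𝓞 K))
    (V : WeierstrassCurve (𝓞 K)) : Prop :=
  IsEquation E V ∧ ∀ W : WeierstrassCurve (𝓞 K), IsEquation E W →
    ∀ n : ℕ, V.Δ ∈ v.asIdeal ^ n → W.Δ ∈ v.asIdeal ^ n

/-- the reduction modulo `v` -/
noncomputable def red (v : HeightOneSpectrum (𝓞 K)) (V : WeierstrassCurve (𝓞 K)) :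
    WeierstrassCurve (𝓞 K ⧸ v.asIdeal) := V.map (Ideal.Quotient.mk v.asIdeal)

/-- the number of solutions of a Weierstrass equation in the plane -/
noncomputable def solutions {k : Type} [CommRing k] (V : WeierstrassCurve k) : ℕ :=
  Nat.card {p : k × k // p.2 ^ 2 + V.a₁ * p.1 * p.2 + V.a₃ * p.2 =
    p.1 ^ 3 + V.a₂ * p.1 ^ 2 + V.a₄ * p.1 + V.a₆}

/-- the order of the residue field -/
noncomputable def q (v : HeightOneSpectrum (𝓞 K)) : ℕ := Ideal.absNorm v.asIdeal

/-- the number `a_v`: the order of the residue field minus the number of solutions of the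
reduction of a minimal equation (for good reduction this is `q + 1 - #E(𝓞 K / v)`; for bad
reduction it is `1`, `-1` or `0`) -/
noncomputable def a (V : HeightOneSpectrum (𝓞 K) → WeierstrassCurve (𝓞 K))
    (v : HeightOneSpectrum (𝓞 K)) : ℤ := (q v : ℤ) - (solutions (red v (V v)) : ℤ)

/-- the Euler factor at `v` (its inverse): `1 - a_v q^(-s) + q^(1 - 2 s)` for good reduction,
`1 - a_v q^(-s)` for bad reduction -/
noncomputable def factor (V : HeightOneSpectrum (𝓞 K) → WeierstrassCurve (𝓞 K)) (s : ℂ)
    (v : HeightOneSpectrum (𝓞 K)) : ℂ :=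
  1 - (a V v : ℂ) * ((q v : ℕ) : ℂ) ^ (-s) +
    (if (V v).Δ ∈ v.asIdeal then 0 else 1) * ((q v : ℕ) : ℂ) ^ (1 - 2 * s)

/-- `L(E / K, s)`, where `V v` is an equation of `E` which is minimal at `v` -/
noncomputable def L (V : HeightOneSpectrum (𝓞 K) → WeierstrassCurve (𝓞 K)) (s : ℂ) : ℂ :=
  ∏' v, (factor V s v)⁻¹

/-- the rank of the Mordell–Weil group -/
noncomputable def rank {F : Type} [Field F] (E : WeierstrassCurve F) : ℕ :=
  Module.finrank ℤ E.toAffine.Point

/-- The order formula, for a power of the `L`-function: for some `k ≥ 1` the function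
`L(E / K, s) ^ k` has a meromorphic continuation to `ℂ` whose order at `s = 1` is `k` times the
rank of `E(K)`. -/
def OrderFormula (E : WeierstrassCurve K) : Prop :=
  ∃ (V : HeightOneSpectrum (𝓞 K) → WeierstrassCurve (𝓞 K)) (k : ℕ) (Λ : ℂ → ℂ),
    (∀ v, MinimalAt E v (V v)) ∧ k ≠ 0 ∧ MeromorphicOn Λ Set.univ ∧
    (∀ s : ℂ, 3 / 2 < s.re → Λ s = L V s ^ k) ∧
    meromorphicOrderAt Λ 1 = ((k * rank E : ℤ) : WithTop ℤ)

end lfunction

/-- a finite extension of a number field -/
structure Extension (K : Type) [Field K] [NumberField K] where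
  /-- the field -/
  F : Type
  [field : Field F]
  [numberField : NumberField F]
  [algebra : Algebra K F]

attribute [instance] Extension.field Extension.numberField Extension.algebra

/-- **The theorem.** Let `E` be an elliptic curve over the number field `K`, `M` a finite
extension of `K` and `m ≥ 1`.

(1) There are finitely many extensions `F_i` of `K`, nonzero `d_i` in `F_i`, integers `e_i` and
`k ≥ 1` such that for every `i` the twist of `E` over `F_i` by `d_i` is semistable at all primes
of `F_i`, or `d_i = 1` and `E` over `F_i` is exceptional; `k · rank E(K)` is the sum of the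
`e_i · rank` of the twists, and `L(E / K, s) ^ k` is the product of the `L ^ (e_i)` of the twists
and of a meromorphic function on `ℂ` of order `0` at `s = 1`. If `K` and `M` are totally real
then so are all the `F_i`.

(2) If the order formula holds for all everywhere semistable quadratic twists of `E` over all
extensions of `K`, and for `E` over all extensions where it is exceptional, then it holds for
`E` over `K`; if `K` and `M` are totally real, only totally real extensions are needed. Moreover
`L(E / K, s)` then has a meromorphic continuation to a connected open set which contains the half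
plane and `1`, of order `rank E(K)` at `s = 1`; and the order at `s = 1` of every such
continuation is `rank E(K)`.

(3) If at every prime of `K` some quadratic twist of `E` is semistable, then `E` is exceptional
over no extension of `K`; so only everywhere semistable twists occur in (1) and (2). -/
theorem result {K : Type} [Field K] [NumberField K] (E : WeierstrassCurve K)
    (hE : E.IsElliptic) (M : Type) [Field M] [NumberField M] [Algebra K M] (m : ℕ) (hm : m ≠ 0) :
    (∃ (I : Type) (_ : Fintype I) (Z : I → Extension K) (d : ∀ i, (Z i).F) (e : I → ℤ) (k : ℕ),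
      k ≠ 0 ∧ (∀ i, d i ≠ 0) ∧
      (∀ i, IsTotallyReal K ∧ IsTotallyReal M → IsTotallyReal (Z i).F) ∧
      (∀ i, EverywhereSemistable (twist (E.map (algebraMap K (Z i).F)) (d i)) ∨
        (d i = 1 ∧ Exceptional K M m (Z i).F (E.map (algebraMap K (Z i).F)))) ∧
      ((k : ℤ) * rank E = ∑ i, e i * (rank (twist (E.map (algebraMap K (Z i).F)) (d i)) : ℤ)) ∧
      ∀ (V : HeightOneSpectrum (𝓞 K) → WeierstrassCurve (𝓞 K))
        (VZ : ∀ i, HeightOneSpectrum (𝓞 (Z i).F) → WeierstrassCurve (𝓞 (Z i).F)),
        (∀ v, MinimalAt E v (V v)) →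
        (∀ i v, MinimalAt (twist (E.map (algebraMap K (Z i).F)) (d i)) v (VZ i v)) →
        ∃ R : ℂ → ℂ, MeromorphicOn R Set.univ ∧ meromorphicOrderAt R 1 = 0 ∧
          ∀ s : ℂ, 3 / 2 < s.re → L V s ^ k = R s * ∏ i, L (VZ i) s ^ e i) ∧
    ((∀ (F : Type) [Field F] [NumberField F] [Algebra K F] (d : F),
        (IsTotallyReal K ∧ IsTotallyReal M → IsTotallyReal F) → d ≠ 0 →
        EverywhereSemistable (twist (E.map (algebraMap K F)) d) →
        OrderFormula (twist (E.map (algebraMap K F)) d)) →
      (∀ (F : Type) [Field F] [NumberField F] [Algebra K F],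
        (IsTotallyReal K ∧ IsTotallyReal M → IsTotallyReal F) →
        Exceptional K M m F (E.map (algebraMap K F)) → OrderFormula (E.map (algebraMap K F))) →
      OrderFormula E ∧
      ∀ V : HeightOneSpectrum (𝓞 K) → WeierstrassCurve (𝓞 K), (∀ v, MinimalAt E v (V v)) →
        (∃ (U : Set ℂ) (Λ : ℂ → ℂ), IsOpen U ∧ IsConnected U ∧ (1 : ℂ) ∈ U ∧
          {s : ℂ | 3 / 2 < s.re} ⊆ U ∧ MeromorphicOn Λ U ∧
          (∀ s : ℂ, 3 / 2 < s.re → Λ s = L V s) ∧ meromorphicOrderAt Λ 1 = (rank E : ℤ)) ∧
        (∀ (U : Set ℂ) (Λ : ℂ → ℂ), IsPreconnected U → (1 : ℂ) ∈ U →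
          {s : ℂ | 3 / 2 < s.re} ⊆ U → MeromorphicOn Λ U →
          (∀ s : ℂ, 3 / 2 < s.re → Λ s = L V s) → meromorphicOrderAt Λ 1 = (rank E : ℤ))) ∧
    ((∀ P : Ideal (𝓞 K), P.IsMaximal → ∃ d : K, d ≠ 0 ∧ Semistable (twist E d) P) →
      ∀ (F : Type) [Field F] [NumberField F] [Algebra K F],
        ¬ Exceptional K M m F (E.map (algebraMap K F))) := by
  obtain ⟨⟨k, hk, I, iI, T, e, h1, h2, h3, h4⟩, hred⟩ :=
    Pool.Agent.K4H83.TR.final E hE M m hm
  refine ⟨⟨I, iI, fun i => ⟨(T i).Z.F⟩, fun i => (T i).c, e, k, hk, h1, fun i => (h2 i).1,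
    fun i => (h2 i).2, h3, h4⟩, fun hyp1 hyp2 => ?_, fun h => Pool.Agent.K4H83.TR.not_exG h⟩
  have h := hred hyp1 hyp2
  obtain ⟨V0, hV0⟩ := Pool.Agent.R433.MD.exists_minimal E hE
  obtain ⟨⟨k, Λ, hk, hΛ, hL, ho⟩, -, -⟩ := h V0 hV0
  exact ⟨⟨V0, k, Λ, hV0, hk, hΛ, hL, ho⟩, fun V hV => ⟨(h V hV).2.1, (h V hV).2.2⟩⟩

end Pool.Agent.Results.MP_1a91b9_nt.OneAdditivePlace
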